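import Pool.Agent.J6H55.QF.Sub
import Pool.Agent.Q41.GT.Ah

/-!
# Curves in the fibres: heights
-/

set_option autoImplicit false
set_option linter.overlappingInstances false

namespace Pool.Agent.J6H55.QF

open Polynomial FF
open Pool.Agent.W603.LV (hgt canDeg hgt_root hgt_mvpoly hgt_nonneg)
open Pool.Agent.Q41.GT (Sg V num den crs rats)
open Pool.Agent.Q103.RP (evc evc_coeff)

/-- the height of an algebraic element -/
theorem hgt_rel {k κ L : Type} [Field k] [Field κ] [IsAlgClosed κ] [CharZero κ] [Field L]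
    [Algebra κ L] [IsFF κ L] [Algebra k κ] [Algebra k L] [IsScalarTower k κ L] {N : ℕ}
    (f : Polynomial (MvPolynomial (Fin N) k)) {e : Fin N → L} {z : L} (h : Rel f e z) :
    hgt κ z ≤ (∑ m ∈ Finset.range (f.natDegree + 1), (f.coeff m).totalDegree : ℕ) *
      ∑ s, hgt κ (e s) := by
  classical
  obtain ⟨h1, h2⟩ := h
  obtain ⟨D, hD⟩ : ∃ D, D = (evc f e).natDegree := ⟨_, rfl⟩
  have hDf : D ≤ f.natDegree := by
    rw [hD]
    unfold evc
    exact natDegree_map_le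
  have hlead : (evc f e).coeff D ≠ 0 := by
    rw [hD, coeff_natDegree]
    exact leadingCoeff_ne_zero.2 h1
  have hrel : ∑ m ∈ Finset.range (D + 1), (evc f e).coeff m * z ^ m = 0 := by
    rw [← h2, eval_eq_sum_range, hD]
  have h3 := hgt_root (k := κ) (fun m => (evc f e).coeff m) hlead z hrel
  have h4 : hgt κ ((evc f e).coeff D) + ∑ m ∈ Finset.range D, hgt κ ((evc f e).coeff m) =
      ∑ m ∈ Finset.range (D + 1), hgt κ ((evc f e).coeff m) := by
    rw [Finset.sum_range_succ, add_comm]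
  rw [h4] at h3
  have h0 : 0 ≤ ∑ s, hgt κ (e s) := Finset.sum_nonneg fun s _ => hgt_nonneg (k := κ) _
  have hco : ∀ m, hgt κ ((evc f e).coeff m) ≤ ((f.coeff m).totalDegree : ℤ) * ∑ s, hgt κ (e s) := by
    intro m
    rw [evc_coeff]
    have h5 : MvPolynomial.aeval e (f.coeff m) =
        MvPolynomial.aeval e (MvPolynomial.map (algebraMap k κ) (f.coeff m)) := by
      rw [MvPolynomial.aeval_map_algebraMap]
    rw [h5]
    refine (hgt_mvpoly (k := κ) e _).trans ?_
    refine mul_le_mul_of_nonneg_right ?_ h0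
    have h6 : (MvPolynomial.map (algebraMap k κ) (f.coeff m)).totalDegree ≤
        (f.coeff m).totalDegree := by
      unfold MvPolynomial.totalDegree
      exact Finset.sup_mono (MvPolynomial.support_map_subset _ _)
    exact_mod_cast h6
  refine h3.trans ((Finset.sum_le_sum fun m _ => hco m).trans ?_)
  rw [← Finset.sum_mul]
  refine mul_le_mul_of_nonneg_right ?_ h0
  push_cast
  exact Finset.sum_le_sum_of_subset_of_nonneg (Finset.range_mono (by omega))
    (fun _ _ _ => Int.natCast_nonneg _)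

/-- **The heights of the curves in the fibres.** -/
theorem height : ∃ B : ℕ → ℕ, ∀ (k σ β ι : Type) [Field k] [Countable k] [Finite σ] [Fintype β]
    [Fintype ι] [Algebra k ℂ] (d n : ι → ℕ) (X : Family k σ β ι d n), (∀ j, 2 ≤ d j) →
    (∀ j, B (d j) ≤ n j) → ∃ A : ℕ, ∀ (κ L : Type) [Field κ] [IsAlgClosed κ] [Algebra k κ] [Field L]
    [Algebra k L] [Algebra κ L] [IsScalarTower k κ L] [IsFF κ L] (y : σ → L), y ∈ Pts X.I X.J L →
    ∀ i, hgt κ (y i) ≤ A * (max (canDeg κ L) 0 + ∑ i, hgt κ (MvPolynomial.aeval y (X.b i))) := by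
  classical
  choose B hB using Pool.Agent.Q41.GT.c_vht
  refine ⟨fun d => if h : 2 ≤ d then B d h else 0, ?_⟩
  intro k σ β ι _ _ _ _ _ _ d n X hd hn
  have hn' : ∀ j, B (d j) (hd j) ≤ n j := fun j => by
    have h1 : (if h : 2 ≤ d j then B (d j) h else 0) ≤ n j := hn j
    rwa [dif_pos (hd j)] at h1
  choose C hC using fun j => hB (d j) (hd j) (n j) (hn' j)
  obtain ⟨N, e, Q, hQ⟩ := X.strat
  obtain ⟨A0, hA0⟩ : ∃ A0 : ℕ, A0 = ∑ f ∈ Q, ∑ m ∈ Finset.range (f.natDegree + 1),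
    (f.coeff m).totalDegree := ⟨_, rfl⟩
  obtain ⟨C0, hC0⟩ : ∃ C0 : ℕ, C0 = ∑ s : (Σ j, Sg (d j)), C s.1 := ⟨_, rfl⟩
  refine ⟨A0 * (C0 + 1), ?_⟩
  intro κ L _ _ _ _ _ _ _ _ y hy i
  have : CharZero k := by
    refine ⟨fun a b h => ?_⟩
    have h1 := congrArg (algebraMap k ℂ) h
    rw [map_natCast, map_natCast] at h1
    exact_mod_cast h1
  have : CharZero κ := charZero_of_injective_algebraMap (algebraMap k κ).injective
  obtain ⟨f, hf, hrel⟩ := hQ L y hy i
  obtain ⟨g, hg⟩ : ∃ g : ℤ, g = max (canDeg κ L) 0 := ⟨_, rfl⟩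
  have hg0 : 0 ≤ g := by rw [hg]; exact le_max_right _ _
  obtain ⟨b, hb⟩ : ∃ b : ℤ, b = ∑ i, hgt κ (MvPolynomial.aeval y (X.b i)) := ⟨_, rfl⟩
  have hb0 : 0 ≤ b := by rw [hb]; exact Finset.sum_nonneg fun s _ => hgt_nonneg (k := κ) _
  rw [← hg, ← hb]
  have hsum : ∑ s, hgt κ (MvPolynomial.aeval y (X.c (e s))) ≤ (C0 + 1) * (g + b) := by
    rw [e.sum_comp (fun s => hgt κ (MvPolynomial.aeval y (X.c s))), Fintype.sum_sum_type]
    have h1 : ∑ s : (Σ j, Sg (d j)), hgt κ (MvPolynomial.aeval y (X.c (Sum.inr s))) ≤ C0 * g := by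
      rw [hC0]
      push_cast
      rw [Finset.sum_mul]
      refine Finset.sum_le_sum fun s _ => ?_
      rw [hg]
      exact hC s.1 κ L (X.am y s.1) (X.maps' hy s.1) s.2
    have h2 : ∑ i, hgt κ (MvPolynomial.aeval y (X.c (Sum.inl i))) = b := hb.symm
    rw [h2]
    have h3 : (0 : ℤ) ≤ C0 * b := mul_nonneg (Int.natCast_nonneg _) hb0
    linarith
  refine (hgt_rel (κ := κ) f hrel).trans ?_
  have h1 : ((∑ m ∈ Finset.range (f.natDegree + 1), (f.coeff m).totalDegree : ℕ) : ℤ) ≤ A0 := by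
    rw [hA0]
    exact_mod_cast Finset.single_le_sum (f := fun f : Polynomial (MvPolynomial (Fin N) k) =>
      ∑ m ∈ Finset.range (f.natDegree + 1), (f.coeff m).totalDegree) (fun _ _ => Nat.zero_le _) hf
  have h0 : 0 ≤ ∑ s, hgt κ (MvPolynomial.aeval y (X.c (e s))) :=
    Finset.sum_nonneg fun s _ => hgt_nonneg (k := κ) _
  refine (mul_le_mul_of_nonneg_right h1 h0).trans ?_
  refine (mul_le_mul_of_nonneg_left hsum (Int.natCast_nonneg _)).trans (le_of_eq ?_)
  push_cast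
  ring

end Pool.Agent.J6H55.QF
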