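import Pool.Agent.Q41.GT.Mod

/-!
# Families of varieties which are quasi-finite over products of moduli spaces of maps: definitions
-/

set_option autoImplicit false

namespace Pool.Agent.J6H55.QF

open Pool.Agent.Q41.GT (Sg V num den)

/-- The points over the field `E` of the locally closed subset of affine space given by the equations
`F = 0`, `F ∈ I`, and the condition that not all `G ∈ J` vanish. -/
def Pts {k σ : Type} [Field k] (I J : Set (MvPolynomial σ k)) (E : Type) [Field E] [Algebra k E] :
    Set (σ → E) :=
  {y | (∀ F ∈ I, MvPolynomial.aeval y F = 0) ∧ ∃ G ∈ J, MvPolynomial.aeval y G ≠ 0}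

/-- A family of varieties over the affine space with the coordinates `β`, quasi-finite over the product
of the moduli spaces `V (d j) (n j)`: a locally closed subset `U` of an affine space (equations `I`,
not all `G ∈ J` vanish) over `k`, a morphism `b` from `U` to affine space and morphisms `a j` from `U` to
`V (d j) (n j)` such that `(b, a)` has finite fibres. -/
structure Family (k σ β ι : Type) [Field k] [Algebra k ℂ] (d n : ι → ℕ) where
  /-- the equations -/
  I : Set (MvPolynomial σ k)
  /-- the inequations -/
  J : Set (MvPolynomial σ k)
  /-- the morphism to the base -/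
  b : β → MvPolynomial σ k
  /-- the morphisms to the moduli spaces -/
  a : ∀ j, Sg (d j) → MvPolynomial σ k
  /-- they are morphisms to the moduli spaces -/
  maps : ∀ y ∈ Pts I J ℂ, ∀ j, (fun s => MvPolynomial.aeval y (a j s)) ∈ V (d j) (n j) ℂ
  /-- the fibres are finite -/
  fin : ∀ (c : β → ℂ) (e : ∀ j, Sg (d j) → ℂ), {y | y ∈ Pts I J ℂ ∧
    (∀ i, MvPolynomial.aeval y (b i) = c i) ∧ ∀ j s, MvPolynomial.aeval y (a j s) = e j s}.Finite

end Pool.Agent.J6H55.QF
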