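import Pool.Agent.J6H55.QF.Emb
import Pool.Agent.J6H55.QF.Defs
import Pool.Agent.Q285.GT.Qsub

/-!
# Points over arbitrary fields
-/

set_option autoImplicit false

namespace Pool.Agent.J6H55.QF

open Pool.Agent.Q41.GT (Sg V num den)
open Pool.Agent.W277.UH (ratP1)

/-- points and homomorphisms -/
theorem pts_map {k σ : Type} [Field k] {I J : Set (MvPolynomial σ k)} {E E' : Type} [Field E]
    [Algebra k E] [Field E'] [Algebra k E'] (φ : E →ₐ[k] E') {y : σ → E} :
    (fun i => φ (y i)) ∈ Pts I J E' ↔ y ∈ Pts I J E := by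
  have h1 : ∀ G : MvPolynomial σ k, MvPolynomial.aeval (fun i => φ (y i)) G =
      φ (MvPolynomial.aeval y G) := fun G => (MvPolynomial.comp_aeval_apply (f := y) (φ := φ) G).symm
  unfold Pts
  rw [Set.mem_setOf_eq, Set.mem_setOf_eq]
  simp only [h1, map_eq_zero, ne_eq]

/-- the moduli space and homomorphisms -/
theorem V_map_iff {K L : Type} [Field K] [Field L] (T : K →+* L) (d n : ℕ) (x : Sg d → K) :
    (fun i => T (x i)) ∈ V d n L ↔ x ∈ V d n K := by
  refine ⟨fun hx => ⟨?_, ?_⟩, fun hx => Pool.Agent.Q285.GT.V_map T d n x hx⟩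
  · have h1 := hx.1
    rw [Pool.Agent.Q285.GT.num_map, Pool.Agent.Q285.GT.den_map, Polynomial.isCoprime_map] at h1
    exact h1
  · have h1 := hx.2
    rw [Pool.Agent.Q285.GT.num_map, Pool.Agent.Q285.GT.den_map] at h1
    rw [← h1]
    have key : ∀ m, Function.IsPeriodicPt (ratP1 ((num d x).map T) ((den d x).map T) d) m none ↔
        Function.IsPeriodicPt (ratP1 (num d x) (den d x) d) m none := by
      intro m
      have h2 := Pool.Agent.Q285.GT.ratP1_iter_map T (num d x) (den d x) d none m
      unfold Function.IsPeriodicPt Function.IsFixedPt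
      rw [Option.map_none] at h2
      rw [h2]
      exact Option.map_eq_none_iff
    exact Nat.dvd_antisymm ((key _).1 (Function.isPeriodicPt_minimalPeriod _ _)).minimalPeriod_dvd
      ((key _).2 (Function.isPeriodicPt_minimalPeriod _ _)).minimalPeriod_dvd

section

variable {k σ : Type} [Field k] [Countable k] [Finite σ] [Algebra k ℂ]
  {I J : Set (MvPolynomial σ k)} {E : Type} [Field E] [Algebra k E]

/-- a point over any field comes from a complex point -/
theorem exists_pt {y : σ → E} (hy : y ∈ Pts I J E) :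
    ∃ (y' : σ → IntermediateField.adjoin k (Set.range y))
      (ψ : IntermediateField.adjoin k (Set.range y) →ₐ[k] ℂ),
      (∀ i, (y' i : E) = y i) ∧ (fun i => ψ (y' i)) ∈ Pts I J ℂ := by
  have h1 : Countable (IntermediateField.adjoin k (Set.range y)) :=
    countable_adjoin (Set.countable_range y)
  obtain ⟨ψ⟩ := exists_emb (F := k) (E := IntermediateField.adjoin k (Set.range y))
  refine ⟨fun i => ⟨y i, IntermediateField.subset_adjoin _ _ ⟨i, rfl⟩⟩, ψ, fun i => rfl, ?_⟩
  rw [pts_map ψ]
  rw [← pts_map (IntermediateField.adjoin k (Set.range y)).val]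
  exact hy

/-- **Finite fibres.** -/
theorem alg_of_fin {γ : Type} [Finite γ] (c : γ → MvPolynomial σ k)
    (hfin : ∀ e : γ → ℂ, {y | y ∈ Pts I J ℂ ∧ ∀ s, MvPolynomial.aeval y (c s) = e s}.Finite)
    {y : σ → E} (hy : y ∈ Pts I J E) (i : σ) :
    IsAlgebraic (IntermediateField.adjoin k (Set.range fun s => MvPolynomial.aeval y (c s)))
      (y i) := by
  by_contra htr
  obtain ⟨F, hF⟩ : ∃ F, F = IntermediateField.adjoin k (Set.range fun s =>
    MvPolynomial.aeval y (c s)) := ⟨_, rfl⟩
  rw [← hF] at htr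
  have hFc : Countable F := by
    rw [hF]
    exact countable_adjoin (Set.countable_range _)
  obtain ⟨E₀, hE₀⟩ : ∃ E₀ : IntermediateField F E, E₀ = IntermediateField.adjoin F (Set.range y) :=
    ⟨_, rfl⟩
  have hE₀c : Countable E₀ := by
    rw [hE₀]
    exact countable_adjoin (Set.countable_range y)
  obtain ⟨φ⟩ := exists_emb (F := k) (E := F)
  letI : Algebra F ℂ := φ.toRingHom.toAlgebra
  haveI : IsScalarTower k F ℂ := IsScalarTower.of_algebraMap_eq fun x => (φ.commutes x).symm
  have hyE : ∀ i, y i ∈ E₀ := fun i => by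
    rw [hE₀]
    exact IntermediateField.subset_adjoin _ _ ⟨i, rfl⟩
  obtain ⟨y₀, hy₀⟩ : ∃ y₀ : σ → E₀, ∀ i, (y₀ i : E) = y i := ⟨fun i => ⟨y i, hyE i⟩, fun i => rfl⟩
  have hz : Transcendental F (y₀ i) := by
    intro h
    apply htr
    rw [← hy₀ i]
    exact h.algebraMap
  obtain ⟨t, ht⟩ := exists_trans F
  have htn : ∀ m : ℕ, Transcendental F (t + m) := by
    intro m h
    apply ht
    have h1 : IsAlgebraic F ((m : ℕ) : ℂ) := by
      have := isAlgebraic_algebraMap (R := F) (A := ℂ) ((m : ℕ) : F)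
      rwa [map_natCast] at this
    have h2 := h.sub h1
    rwa [add_sub_cancel_right] at h2
  choose ψ hψ using fun m : ℕ => exists_emb_at hz (htn m)
  -- the values of the functions `c`
  have hcF : ∀ s, MvPolynomial.aeval y (c s) ∈ F := fun s => by
    rw [hF]
    exact IntermediateField.subset_adjoin _ _ ⟨s, rfl⟩
  have hval : ∀ (m : ℕ) (G : MvPolynomial σ k), MvPolynomial.aeval (fun i => ψ m (y₀ i)) G =
      ψ m (MvPolynomial.aeval y₀ G) := fun m G =>
    (MvPolynomial.comp_aeval_apply (f := y₀) (φ := (ψ m).restrictScalars k) G).symm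
  have hc : ∀ (m : ℕ) s, MvPolynomial.aeval (fun i => ψ m (y₀ i)) (c s) =
      φ ⟨_, hcF s⟩ := by
    intro m s
    rw [hval]
    have h1 : MvPolynomial.aeval y₀ (c s) = algebraMap F E₀ ⟨_, hcF s⟩ := by
      apply Subtype.ext
      have h2 : ((MvPolynomial.aeval y₀ (c s) : E₀) : E) = MvPolynomial.aeval y (c s) := by
        have h3 := MvPolynomial.comp_aeval_apply (f := y₀) (φ := E₀.val.restrictScalars k) (c s)
        have h4 : (fun i => (E₀.val.restrictScalars k) (y₀ i)) = y := funext hy₀
        rw [h4] at h3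
        exact h3
      rw [h2]
      rfl
    rw [h1, (ψ m).commutes]
    rfl
  have hmem : ∀ m, (fun i => ψ m (y₀ i)) ∈ {y | y ∈ Pts I J ℂ ∧
      ∀ s, MvPolynomial.aeval y (c s) = φ ⟨_, hcF s⟩} := by
    intro m
    refine ⟨?_, hc m⟩
    have h1 := (pts_map (I := I) (J := J) ((ψ m).restrictScalars k) (y := y₀)).2 (by
      rw [← pts_map (E₀.val.restrictScalars k)]
      have h4 : (fun i => (E₀.val.restrictScalars k) (y₀ i)) = y := funext hy₀
      rw [h4]
      exact hy)
    exact h1
  have hinj : Function.Injective fun m : ℕ => (fun i => ψ m (y₀ i)) := by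
    intro m m' h
    have h1 := congrFun h i
    have h2 : ψ m (y₀ i) = ψ m' (y₀ i) := h1
    rw [hψ, hψ] at h2
    have h3 := add_left_cancel h2
    exact_mod_cast h3
  exact Set.infinite_of_injective_forall_mem hinj hmem (hfin _)

end

section

variable {k σ β ι : Type} [Field k] [Countable k] [Finite σ] [Finite β] [Finite ι] [Algebra k ℂ]
  {d n : ι → ℕ}

/-- the coordinates of the base and of the moduli -/
def Family.c (X : Family k σ β ι d n) : β ⊕ (Σ j, Sg (d j)) → MvPolynomial σ k :=
  Sum.elim X.b fun s => X.a s.1 s.2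

theorem Family.alg (X : Family k σ β ι d n) {E : Type} [Field E] [Algebra k E] {y : σ → E}
    (hy : y ∈ Pts X.I X.J E) (i : σ) :
    IsAlgebraic (IntermediateField.adjoin k (Set.range fun s => MvPolynomial.aeval y (X.c s)))
      (y i) := by
  refine alg_of_fin X.c (fun e => ?_) hy i
  refine (X.fin (fun i => e (Sum.inl i)) (fun j s => e (Sum.inr ⟨j, s⟩))).subset ?_
  rintro y ⟨h1, h2⟩
  exact ⟨h1, fun i => h2 (Sum.inl i), fun j s => h2 (Sum.inr ⟨j, s⟩)⟩

theorem Family.maps' (X : Family k σ β ι d n) {E : Type} [Field E] [Algebra k E] {y : σ → E}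
    (hy : y ∈ Pts X.I X.J E) (j : ι) :
    (fun s => MvPolynomial.aeval y (X.a j s)) ∈ V (d j) (n j) E := by
  obtain ⟨y', ψ, hy', hψ⟩ := exists_pt hy
  have h1 := X.maps _ hψ j
  have h2 : (fun s => MvPolynomial.aeval (fun i => ψ (y' i)) (X.a j s)) =
      fun s => ψ.toRingHom (MvPolynomial.aeval y' (X.a j s)) := by
    funext s
    exact (MvPolynomial.comp_aeval_apply (f := y') (φ := ψ) _).symm
  rw [h2, V_map_iff ψ.toRingHom] at h1
  have h3 : (fun s => MvPolynomial.aeval y (X.a j s)) =
      fun s => (IntermediateField.adjoin k (Set.range y)).val.toRingHom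
        (MvPolynomial.aeval y' (X.a j s)) := by
    funext s
    have h4 : (fun i => (IntermediateField.adjoin k (Set.range y)).val (y' i)) = y := funext hy'
    have h5 := MvPolynomial.comp_aeval_apply (f := y')
      (φ := (IntermediateField.adjoin k (Set.range y)).val) (X.a j s)
    rw [h4] at h5
    exact h5.symm
  rw [h3, V_map_iff]
  exact h1

end

end Pool.Agent.J6H55.QF
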