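import Pool.Agent.J6H55.QF.Sd
import Pool.Agent.Q103.RP.Hom
import Pool.Agent.Q103.RP.Cpx
import Pool.Agent.Q41.GT.Top

/-!
# The points of the moduli space over one conjugacy class
-/

set_option autoImplicit false

namespace Pool.Agent.J6H55.QF

open Polynomial
open Pool.Agent.Q41.GT (Sg V num den lift pt)
open Pool.Agent.W277.UH (ratP1)
open Pool.Agent.Q103.RP (mk mk_hom mk_eval mk_map cfv rs_ne coeffs_mk)
open Pool.Agent.H951R3.PB (wd ev rs)
open Pool.Agent.Q256.FX (CJC)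

/-- the pair of binary forms of the map with the coefficients `z` -/
noncomputable def frm {K : Type} [Field K] (d : ℕ) (z : Sg d → K) : Fin 2 → MvPolynomial (Fin 2) K :=
  mk d (cfv d (num d z) (den d z))

section

variable {K : Type} [Field K]

theorem ev_frm (d : ℕ) (z : Sg d → K) : ev (frm d z) = lift (num d z) (den d z) d := by
  funext v i
  show MvPolynomial.eval v (mk d (cfv d (num d z) (den d z)) i) = _
  rw [mk_eval]
  unfold lift cfv
  fin_cases i
  · simp [Finset.sum_range]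
  · simp [Finset.sum_range]

theorem frm_rs {d n : ℕ} (hd : 1 ≤ d) {z : Sg d → K} (hz : z ∈ V d n K) : rs (frm d z) d ≠ 0 :=
  rs_ne hd hz.1 (V_max hd)

theorem frm_iter {d n : ℕ} (hd : 1 ≤ d) {z : Sg d → K} (hz : z ∈ V d n K) {v : Fin 2 → K}
    (hv : v ≠ 0) (m : ℕ) : (ev (frm d z))^[m] v ≠ 0 ∧
      (ratP1 (num d z) (den d z) d)^[m] (pt v) = pt ((ev (frm d z))^[m] v) := by
  have h1 := Pool.Agent.Q176.GT.R1.hom K d (num d z) (den d z) hz.1 (V_max hd) v hv m
  rw [ev_frm]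
  exact ⟨h1.1, h1.2.1⟩

theorem pt_e1 : pt (![1, 0] : Fin 2 → K) = none := by
  unfold pt
  simp

theorem e1_ne : (![1, 0] : Fin 2 → K) ≠ 0 := by
  intro h
  have := congrFun h 0
  simp at this

theorem pt_none {v : Fin 2 → K} (h : pt v = none) : v 1 = 0 := by
  unfold pt at h
  by_contra h0
  rw [if_neg h0] at h
  exact Option.some_ne_none _ h

theorem frm_e1 {d : ℕ} (hd : 1 ≤ d) (z : Sg d → K) : ev (frm d z) ![1, 0] = ![0, 1] := by
  rw [ev_frm]
  have h1 : ∀ p : K[X], ∑ i ∈ Finset.range (d + 1), algebraMap K K (p.coeff i) *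
      (![1, 0] : Fin 2 → K) 0 ^ i * (![1, 0] : Fin 2 → K) 1 ^ (d - i) = p.coeff d := by
    intro p
    rw [Finset.sum_range_succ, Finset.sum_eq_zero, zero_add]
    · simp
    · intro i hi
      rw [Finset.mem_range] at hi
      have : d - i ≠ 0 := by omega
      simp [this]
  unfold lift
  rw [h1, h1, (den_deg hd z).2, coeff_eq_zero_of_natDegree_lt (num_deg hd z)]

theorem frm_e2 {d : ℕ} (hd : 1 ≤ d) (z : Sg d → K) :
    ev (frm d z) ![0, 1] = (num d z).coeff 0 • ![1, 1] := by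
  rw [ev_frm]
  have h1 : ∀ p : K[X], ∑ i ∈ Finset.range (d + 1), algebraMap K K (p.coeff i) *
      (![0, 1] : Fin 2 → K) 0 ^ i * (![0, 1] : Fin 2 → K) 1 ^ (d - i) = p.coeff 0 := by
    intro p
    rw [Finset.sum_range_succ', Finset.sum_eq_zero, zero_add]
    · simp
    · intro i hi
      simp
  unfold lift
  rw [h1, h1, den_zero hd]
  funext i
  fin_cases i <;> simp

theorem num_zero_ne {d n : ℕ} (hd : 1 ≤ d) {z : Sg d → K} (hz : z ∈ V d n K) :
    (num d z).coeff 0 ≠ 0 := by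
  intro h0
  have h2 : (den d z).eval 0 = 0 := by
    rw [← coeff_zero_eq_eval_zero, den_zero hd, h0]
  rw [coeff_zero_eq_eval_zero] at h0
  obtain ⟨a, b, hab⟩ := hz.1
  have := congrArg (eval 0) hab
  rw [eval_add, eval_mul, eval_mul, h0, h2, mul_zero, mul_zero, add_zero, eval_one] at this
  exact zero_ne_one this

theorem frm_t {d : ℕ} (hd : 1 ≤ d) (z : Sg d → K) (t : K) :
    ev (frm d z) ![t, 1] = ![(num d z).eval t, (den d z).eval t] := by
  rw [ev_frm]
  have h1 : ∀ p : K[X], p.natDegree ≤ d → ∑ i ∈ Finset.range (d + 1), algebraMap K K (p.coeff i) *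
      (![t, 1] : Fin 2 → K) 0 ^ i * (![t, 1] : Fin 2 → K) 1 ^ (d - i) = p.eval t := by
    intro p hp
    rw [eval_eq_sum_range' (by omega : p.natDegree < d + 1)]
    refine Finset.sum_congr rfl fun i _ => ?_
    simp
  unfold lift
  rw [h1 _ (num_deg hd z).le, h1 _ (den_deg hd z).1.le]

/-- points of the moduli space with the same map -/
theorem eq_of_ev [Infinite K] {d : ℕ} (hd : 1 ≤ d) {z z' : Sg d → K}
    (h : ∀ v, ev (frm d z) v = ev (frm d z') v) : z = z' := by
  have h1 : num d z = num d z' := by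
    refine Polynomial.funext fun t => ?_
    have h2 := congrFun (h ![t, 1]) 0
    rw [frm_t hd, frm_t hd] at h2
    exact h2
  have h1' : den d z = den d z' := by
    refine Polynomial.funext fun t => ?_
    have h2 := congrFun (h ![t, 1]) 1
    rw [frm_t hd, frm_t hd] at h2
    exact h2
  funext s
  rcases s with i | i
  · rw [← num_coeff z i, h1, num_coeff]
  · rw [← den_coeff z i, h1', den_coeff]

end

/-- a matrix which fixes infinity and conjugates two normal forms -/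
theorem eq_of_conj {K : Type} [Field K] [Infinite K] {d n : ℕ} (hd : 1 ≤ d) {z z' : Sg d → K}
    (hz : z ∈ V d n K) {B : Matrix (Fin 2) (Fin 2) K} {c l : K} (hc : c ≠ 0) (hl : l ≠ 0)
    (hB : ∀ v, ev (frm d z') (B.mulVec v) = c • B.mulVec (ev (frm d z) v))
    (hB1 : B.mulVec ![1, 0] = l • ![1, 0]) : z = z' := by
  have hf' : ∀ i, (frm d z' i).IsHomogeneous d := fun i => mk_hom d _ i
  have hsm := fun (a : K) (v : Fin 2 → K) => Pool.Agent.H951R3.PB.ev_smul hf' a v
  -- the second column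
  have h1 := hB ![1, 0]
  rw [hB1, hsm, frm_e1 hd, frm_e1 hd] at h1
  obtain ⟨m, hm⟩ : ∃ m, m = c⁻¹ * l ^ d := ⟨_, rfl⟩
  have hB2 : B.mulVec ![0, 1] = m • ![0, 1] := by
    rw [hm, mul_smul, h1, smul_smul, inv_mul_cancel₀ hc, one_smul]
  have hm0 : m ≠ 0 := by
    rw [hm]
    exact mul_ne_zero (inv_ne_zero hc) (pow_ne_zero _ hl)
  have hBv : ∀ a b : K, B.mulVec ![a, b] = ![l * a, m * b] := by
    intro a b
    have h2 : (![a, b] : Fin 2 → K) = a • ![1, 0] + b • ![0, 1] := by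
      funext i
      fin_cases i <;> simp
    rw [h2, Matrix.mulVec_add, Matrix.mulVec_smul, Matrix.mulVec_smul, hB1, hB2]
    funext i
    fin_cases i <;> simp [mul_comm]
  -- the third point
  have h3 := hB ![0, 1]
  rw [hB2, hsm, frm_e2 hd, frm_e2 hd, Matrix.mulVec_smul, hBv, mul_one, mul_one] at h3
  have ha := num_zero_ne hd hz
  have h4 := congrFun h3 0
  have h5 := congrFun h3 1
  simp only [Pi.smul_apply, smul_eq_mul, Matrix.cons_val_zero, Matrix.cons_val_one, mul_one] at h4 h5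
  have hlm : l = m := by
    have h6 : c * ((num d z).coeff 0 * l) = c * ((num d z).coeff 0 * m) := h4.symm.trans h5
    exact mul_left_cancel₀ ha (mul_left_cancel₀ hc h6)
  have hBs : ∀ v, B.mulVec v = l • v := by
    intro v
    have h6 : v = ![v 0, v 1] := by
      funext i
      fin_cases i <;> rfl
    rw [h6, hBv, ← hlm]
    funext i
    fin_cases i <;> simp
  have hcl : c * l = l ^ d := by
    rw [hlm, hm, ← mul_assoc, mul_inv_cancel₀ hc, one_mul]
    have h7 : l = c⁻¹ * l ^ d := hlm.trans hm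
    rw [← h7]
  refine eq_of_ev hd fun v => ?_
  have h6 := hB v
  rw [hBs, hsm, hBs, smul_smul, hcl] at h6
  have h7 : l ^ d ≠ 0 := pow_ne_zero _ hl
  have h8 := congrArg (fun u => (l ^ d)⁻¹ • u) h6
  simp only [smul_smul, inv_mul_cancel₀ h7, one_smul] at h8
  exact h8.symm

/-- **The points of the moduli space over one conjugacy class** are bounded in number. -/
theorem class_count (d n : ℕ) (hd : 2 ≤ d) (hn : 1 ≤ n) : ∃ B₀ : ℕ,
    ∀ (f₀ : Fin 2 → MvPolynomial (Fin 2) ℂ) (Z : Finset (Sg d → ℂ)),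
      (∀ z ∈ Z, z ∈ V d n ℂ ∧ CJC (frm d z) f₀) → Z.card ≤ B₀ := by
  classical
  obtain ⟨B₀, hB⟩ := Pool.Agent.Q14.FX.cntD d n hd
  refine ⟨B₀, fun f₀ Z hZ => ?_⟩
  have hd1 : 1 ≤ d := by omega
  rcases Z.eq_empty_or_nonempty with rfl | ⟨z₀, hz₀⟩
  · simp
  obtain ⟨g, hg⟩ : ∃ g, g = frm d z₀ := ⟨_, rfl⟩
  have hgh : ∀ i, (g i).IsHomogeneous d := fun i => by rw [hg]; exact mk_hom d _ i
  have hgr : rs g d ≠ 0 := by rw [hg]; exact frm_rs hd1 (hZ z₀ hz₀).1
  have hcj : ∀ z ∈ Z, CJC (frm d z) g := fun z hz => by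
    rw [hg]
    exact (hZ z hz).2.trans' (hZ z₀ hz₀).2.symm'
  choose! A c hA hc hcj using hcj
  obtain ⟨w, hw⟩ : ∃ w : (Sg d → ℂ) → Fin 2 → ℂ, w = fun z => (A z)⁻¹.mulVec ![1, 0] := ⟨_, rfl⟩
  have hinv : ∀ z ∈ Z, ∀ x : Fin 2 → ℂ, (A z).mulVec ((A z)⁻¹.mulVec x) = x := by
    intro z hz x
    rw [Matrix.mulVec_mulVec, Matrix.mul_nonsing_inv _ (hA z hz).isUnit, Matrix.one_mulVec]
  have hinv' : ∀ z ∈ Z, ∀ x : Fin 2 → ℂ, (A z)⁻¹.mulVec ((A z).mulVec x) = x := by
    intro z hz x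
    rw [Matrix.mulVec_mulVec, Matrix.nonsing_inv_mul _ (hA z hz).isUnit, Matrix.one_mulVec]
  have hw0 : ∀ z ∈ Z, w z ≠ 0 := by
    intro z hz h0
    apply e1_ne (K := ℂ)
    rw [← hinv z hz ![1, 0]]
    have h1 : (A z)⁻¹.mulVec ![1, 0] = w z := by rw [hw]
    rw [h1, h0, Matrix.mulVec_zero]
  -- different points give different `w`
  have hwd : ∀ z ∈ Z, ∀ z' ∈ Z, z ≠ z' → wd (w z) (w z') ≠ 0 := by
    intro z hz z' hz' hne h0
    apply hne
    obtain ⟨a, ha, h1⟩ := (Pool.Agent.Q103.RP.Few.wd_zero_iff (hw0 z hz) (hw0 z' hz')).1 h0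
    -- `w z' = a • w z`
    refine eq_of_conj hd1 (hZ z hz).1 (B := A z' * (A z)⁻¹) (c := c z' * (c z)⁻¹) (l := a⁻¹)
      (mul_ne_zero (hc z' hz') (inv_ne_zero (hc z hz))) (inv_ne_zero ha) (fun v => ?_) ?_
    · rw [← Matrix.mulVec_mulVec, hcj z' hz']
      have h2 := hcj z hz ((A z)⁻¹.mulVec v)
      rw [hinv z hz] at h2
      rw [h2, ← Matrix.mulVec_mulVec, Matrix.mulVec_smul, Matrix.mulVec_smul, hinv' z hz, smul_smul,
        mul_assoc, inv_mul_cancel₀ (hc z hz), mul_one]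
    · rw [← Matrix.mulVec_mulVec]
      have h3 : (A z)⁻¹.mulVec ![1, 0] = w z := by rw [hw]
      have h4 : w z = a⁻¹ • w z' := by
        rw [h1, smul_smul, inv_mul_cancel₀ ha, one_smul]
      rw [h3, h4, Matrix.mulVec_smul, hw, hinv z' hz']
  -- they are periodic
  have hper : ∀ z ∈ Z, wd (w z) ((ev g)^[n] (w z)) = 0 := by
    intro z hz
    -- iterates
    have hit : ∀ (m : ℕ), ∃ b : ℂ, b ≠ 0 ∧
        (ev (frm d z))^[m] ![1, 0] = b • (A z).mulVec ((ev g)^[m] (w z)) := by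
      intro m
      induction m with
      | zero =>
        refine ⟨1, one_ne_zero, ?_⟩
        rw [Function.iterate_zero, Function.iterate_zero, id, id, one_smul, hw, hinv z hz]
      | succ m ih =>
        obtain ⟨b, hb, h1⟩ := ih
        refine ⟨b ^ d * c z, mul_ne_zero (pow_ne_zero _ hb) (hc z hz), ?_⟩
        rw [Function.iterate_succ_apply', Function.iterate_succ_apply', h1,
          Pool.Agent.H951R3.PB.ev_smul (f := frm d z) (fun i => mk_hom d _ i), hcj z hz, smul_smul]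
    obtain ⟨b, hb, h1⟩ := hit n
    have h2 := frm_iter hd1 (hZ z hz).1 (e1_ne (K := ℂ)) n
    have h3 : (ratP1 (num d z) (den d z) d)^[n] (pt ![1, 0]) = none := by
      rw [pt_e1]
      have h4 := Function.iterate_minimalPeriod (f := ratP1 (num d z) (den d z) d)
        (x := (none : Option ℂ))
      rw [(hZ z hz).1.2] at h4
      exact h4
    rw [h3] at h2
    have h4 := pt_none h2.2.symm
    have h5 : (ev (frm d z))^[n] ![1, 0] = ((ev (frm d z))^[n] ![1, 0]) 0 • ![1, 0] := by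
      funext i
      fin_cases i
      · simp
      · simpa using h4
    obtain ⟨e, he⟩ : ∃ e, e = ((ev (frm d z))^[n] ![1, 0]) 0 := ⟨_, rfl⟩
    rw [← he, h1] at h5
    have h6 : (ev g)^[n] (w z) = (b⁻¹ * e) • w z := by
      have h7 := congrArg (fun u => b⁻¹ • (A z)⁻¹.mulVec u) h5
      simp only [Matrix.mulVec_smul, smul_smul, inv_mul_cancel₀ hb, one_smul, hinv' z hz] at h7
      rw [h7, hw]
    rw [h6]
    unfold wd
    simp only [Pi.smul_apply, smul_eq_mul]
    ring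
  -- the conclusion
  have hcard : (Z.image w).card = Z.card := by
    apply Finset.card_image_of_injOn
    intro z hz z' hz' h
    by_contra hne
    apply hwd z hz z' hz' hne
    rw [h]
    unfold wd
    ring
  rw [← hcard]
  refine hB ℂ g hgh hgr (Z.image w) ?_ ?_ ?_
  · intro v hv
    obtain ⟨z, hz, rfl⟩ := Finset.mem_image.1 hv
    exact hw0 z hz
  · intro v hv v' hv' hne
    obtain ⟨z, hz, rfl⟩ := Finset.mem_image.1 hv
    obtain ⟨z', hz', rfl⟩ := Finset.mem_image.1 hv'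
    exact hwd z hz z' hz' fun h => hne (by rw [h])
  · intro v hv
    obtain ⟨z, hz, rfl⟩ := Finset.mem_image.1 hv
    exact ⟨0, n, by omega, le_rfl, hper z hz⟩

end Pool.Agent.J6H55.QF
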