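import Mathlib.FieldTheory.IsAlgClosed.Classification
import Mathlib.FieldTheory.IntermediateField.Adjoin.Basic
import Mathlib.RingTheory.AlgebraicIndependent.TranscendenceBasis
import Mathlib.Analysis.Complex.Polynomial.Basic
import Mathlib.Analysis.Complex.Cardinality

/-!
# Embeddings of countable fields into the complex numbers
-/

set_option autoImplicit false

namespace Pool.Agent.J6H55.QF

open Cardinal

/-- a map of a transcendence basis to an algebraically independent family extends -/
theorem exists_hom {F E : Type} [Field F] [Field E] [Algebra F E] [Algebra F ℂ] {ι : Type}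
    {v : ι → E} (hv : IsTranscendenceBasis F v) {u : ι → ℂ} (hu : AlgebraicIndependent F u) :
    ∃ ψ : E →ₐ[F] ℂ, ∀ i, ψ (v i) = u i := by
  let A := Algebra.adjoin F (Set.range v)
  let θ : A →ₐ[F] ℂ := (MvPolynomial.aeval u).comp (hv.1.aevalEquiv.symm : A →ₐ[F] MvPolynomial ι F)
  have hθ : Function.Injective θ := by
    intro a b h
    exact hv.1.aevalEquiv.symm.injective (hu h)
  letI : Algebra A ℂ := θ.toRingHom.toAlgebra
  haveI : IsScalarTower F A ℂ := IsScalarTower.of_algebraMap_eq fun x => (θ.commutes x).symm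
  haveI : Algebra.IsAlgebraic A E := hv.isAlgebraic
  haveI : FaithfulSMul A ℂ := (faithfulSMul_iff_algebraMap_injective A ℂ).2 hθ
  haveI : Module.IsTorsionFree A ℂ := inferInstance
  let ψ : E →ₐ[A] ℂ := IsAlgClosed.lift
  refine ⟨ψ.restrictScalars F, fun i => ?_⟩
  have h1 : v i = algebraMap A E ⟨v i, Algebra.subset_adjoin ⟨i, rfl⟩⟩ := rfl
  show ψ (v i) = u i
  rw [h1, ψ.commutes]
  show MvPolynomial.aeval u (hv.1.aevalEquiv.symm _) = u i
  have h2 : (⟨v i, Algebra.subset_adjoin ⟨i, rfl⟩⟩ : A) = hv.1.aevalEquiv (MvPolynomial.X i) := by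
    apply Subtype.ext
    simp
  rw [h2, AlgEquiv.symm_apply_apply, MvPolynomial.aeval_X]

/-- the transcendence degree of the complex numbers over a countable field is infinite -/
theorem infinite_basis {F : Type} [Field F] [Countable F] [Algebra F ℂ] {κ : Type} {t : κ → ℂ}
    (ht : IsTranscendenceBasis F t) : ℵ₀ < #κ := by
  have h1 := IsAlgClosed.cardinal_eq_cardinal_transcendence_basis_of_aleph0_lt' t ht
    (Cardinal.mk_le_aleph0_iff.2 inferInstance) (by rw [Cardinal.mk_complex]; exact Cardinal.aleph0_lt_continuum)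
  rw [← h1, Cardinal.mk_complex]
  exact Cardinal.aleph0_lt_continuum

/-- a countable extension of a countable field embeds into the complex numbers, with a prescribed
transcendental value -/
theorem exists_emb_at {F E : Type} [Field F] [Countable F] [Field E] [Countable E] [Algebra F E]
    [Algebra F ℂ] {z : E} (hz : Transcendental F z) {t : ℂ} (ht : Transcendental F t) :
    ∃ ψ : E →ₐ[F] ℂ, ψ z = t := by
  classical
  obtain ⟨S, hzS, hS⟩ := exists_isTranscendenceBasis_superset (R := F) (s := {z}) (by
    exact (algebraicIndependent_singleton_iff (default : ({z} : Set E))).2 hz)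
  obtain ⟨T, htT, hT⟩ := exists_isTranscendenceBasis_superset (R := F) (s := {t}) (by
    exact (algebraicIndependent_singleton_iff (default : ({t} : Set ℂ))).2 ht)
  have hzS' : z ∈ S := hzS rfl
  have htT' : t ∈ T := htT rfl
  have hcard := infinite_basis hT
  -- an injection
  obtain ⟨e, he⟩ : ∃ e : S → T, Function.Injective e ∧ e ⟨z, hzS'⟩ = ⟨t, htT'⟩ := by
    have hc1 : Countable S := inferInstance
    have hinf : Infinite T := Cardinal.infinite_iff.2 hcard.le
    obtain ⟨g, hg⟩ : ∃ g : S → T, Function.Injective g := by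
      have h1 : #S ≤ #T := (Cardinal.mk_le_aleph0_iff.2 hc1).trans hcard.le
      obtain ⟨g⟩ := h1
      exact ⟨g, g.injective⟩
    refine ⟨fun s => Equiv.swap (g ⟨z, hzS'⟩) ⟨t, htT'⟩ (g s), fun a b h => hg
      ((Equiv.swap _ _).injective h), Equiv.swap_apply_left _ _⟩
  obtain ⟨ψ, hψ⟩ := exists_hom hS (hT.1.comp e he.1)
  refine ⟨ψ, ?_⟩
  have h1 := hψ ⟨z, hzS'⟩
  rw [Function.comp_apply, he.2] at h1
  exact h1

/-- a countable extension of a countable field embeds into the complex numbers -/
theorem exists_emb {F E : Type} [Field F] [Countable F] [Field E] [Countable E] [Algebra F E]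
    [Algebra F ℂ] : Nonempty (E →ₐ[F] ℂ) := by
  obtain ⟨S, hS⟩ := exists_isTranscendenceBasis F E
  obtain ⟨T, hT⟩ := exists_isTranscendenceBasis F ℂ
  have hcard := infinite_basis hT
  obtain ⟨g⟩ : #S ≤ #T := (Cardinal.mk_le_aleph0_iff.2 inferInstance).trans hcard.le
  obtain ⟨ψ, -⟩ := exists_hom hS (hT.1.comp g g.injective)
  exact ⟨ψ⟩

/-- transcendental complex numbers exist -/
theorem exists_trans (F : Type) [Field F] [Countable F] [Algebra F ℂ] :
    ∃ t : ℂ, Transcendental F t := by
  obtain ⟨T, hT⟩ := exists_isTranscendenceBasis F ℂ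
  have hcard := infinite_basis hT
  have hinf : Infinite T := Cardinal.infinite_iff.2 hcard.le
  obtain ⟨t⟩ : Nonempty T := inferInstance
  exact ⟨t, hT.1.transcendental t⟩

/-- the field generated by a countable set -/
theorem countable_adjoin {k E : Type} [Field k] [Countable k] [Field E] [Algebra k E] {s : Set E}
    (hs : s.Countable) : Countable (IntermediateField.adjoin k s) := by
  rw [← Cardinal.mk_le_aleph0_iff]
  refine (IntermediateField.cardinalMk_adjoin_le k s).trans ?_
  refine max_le (max_le (Cardinal.mk_le_aleph0_iff.2 inferInstance) ?_) le_rfl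
  exact Cardinal.mk_le_aleph0_iff.2 hs.to_subtype

end Pool.Agent.J6H55.QF
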