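import Pool.Agent.J6H55.QF.Pt
import Pool.Agent.TH951.FE.Final

/-!
# Points with good reduction in the fibres
-/

set_option autoImplicit false

namespace Pool.Agent.J6H55.QF

open Polynomial NumberField
open Pool.Agent.Q41.GT (Sg V num den)
open Pool.Agent.Q103.RP (mk mk_hom cfv Cfg)
open Pool.Agent.H951R3.PB (wd ev rs hcan PotGood Ext msz hcan_pre F4_finite_ne
  exists_ext_inf exists_ext_fin)
open Pool.Agent.Q256.FX (CJC)

/-- a conjugacy over a field gives a conjugacy over the complex numbers -/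
theorem cjc_of {K : Type} [Field K] [Infinite K] (τ : K →+* ℂ)
    {f g : Fin 2 → MvPolynomial (Fin 2) K} {A : Matrix (Fin 2) (Fin 2) K} {c : K}
    (hA : A.det ≠ 0) (hc : c ≠ 0) (h : ∀ x : Fin 2 → K, c • A.mulVec (ev f x) = ev g (A.mulVec x)) :
    CJC (fun i => (g i).map τ) (fun i => (f i).map τ) := by
  classical
  refine ⟨A.map τ, τ c, ?_, (map_ne_zero τ).2 hc, fun v => ?_⟩
  · rw [← RingHom.mapMatrix_apply, ← RingHom.map_det]
    exact (map_ne_zero τ).2 hA
  · -- polynomial identities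
    let L : Fin 2 → MvPolynomial (Fin 2) K := fun i => ∑ j, MvPolynomial.C (A i j) * MvPolynomial.X j
    have hL : ∀ (x : Fin 2 → K) i, MvPolynomial.eval x (L i) = A.mulVec x i := by
      intro x i
      simp only [L, map_sum, map_mul, MvPolynomial.eval_C, MvPolynomial.eval_X]
      rfl
    have hid : ∀ i, MvPolynomial.C c * ∑ j, MvPolynomial.C (A i j) * f j =
        MvPolynomial.bind₁ L (g i) := by
      intro i
      apply MvPolynomial.funext
      intro x
      have h1 := congrFun (h x) i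
      have h2 : MvPolynomial.eval x (MvPolynomial.bind₁ L (g i)) = ev g (A.mulVec x) i := by
        refine (MvPolynomial.eval₂Hom_bind₁ (RingHom.id K) x L (g i)).trans ?_
        show MvPolynomial.eval (fun i => MvPolynomial.eval x (L i)) (g i) =
          MvPolynomial.eval (A.mulVec x) (g i)
        have h3 : (fun i => MvPolynomial.eval x (L i)) = A.mulVec x := funext fun i => hL x i
        rw [h3]
      rw [h2, ← h1]
      simp only [map_sum, map_mul, MvPolynomial.eval_C]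
      rfl
    funext i
    have h1 := congrArg (fun G => MvPolynomial.eval v (MvPolynomial.map τ G)) (hid i)
    simp only [map_sum, map_mul, MvPolynomial.map_C, MvPolynomial.eval_C] at h1
    show MvPolynomial.eval ((A.map τ).mulVec v) ((g i).map τ) =
      τ c * ∑ j, (A.map τ) i j * MvPolynomial.eval v ((f j).map τ)
    have h2 : MvPolynomial.eval v (MvPolynomial.map τ (MvPolynomial.bind₁ L (g i))) =
        MvPolynomial.eval ((A.map τ).mulVec v) ((g i).map τ) := by
      rw [MvPolynomial.map_bind₁]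
      refine (MvPolynomial.eval₂Hom_bind₁ (RingHom.id ℂ) v _ _).trans ?_
      show MvPolynomial.eval (fun i => MvPolynomial.eval v (MvPolynomial.map τ (L i)))
        ((g i).map τ) = _
      congr 2
      funext i
      simp only [L, map_sum, map_mul, MvPolynomial.map_C, MvPolynomial.map_X, MvPolynomial.eval_C,
        MvPolynomial.eval_X]
      rfl
    rw [← h2, ← h1]
    rfl

/-- embeddings of number fields in the complex numbers factor through a fixed embedding of the
algebraic numbers -/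
theorem exists_factor : ∃ φ : AlgebraicClosure ℚ →+* ℂ, ∀ (L : Type) [Field L] [NumberField L]
    (τ : L →+* ℂ), ∃ σ : L →+* AlgebraicClosure ℚ, ∀ x, φ (σ x) = τ x := by
  have : Algebra.IsAlgebraic ℚ (AlgebraicClosure ℚ) := AlgebraicClosure.isAlgebraic ℚ
  let φ : AlgebraicClosure ℚ →ₐ[ℚ] ℂ := IsAlgClosed.lift
  refine ⟨φ.toRingHom, fun L _ _ τ => ?_⟩
  let _ : Algebra (AlgebraicClosure ℚ) ℂ := φ.toRingHom.toAlgebra
  have : IsScalarTower ℚ (AlgebraicClosure ℚ) ℂ :=
    IsScalarTower.of_algebraMap_eq fun x => (φ.commutes x).symm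
  let e := Algebra.IsAlgebraic.algHomEquivAlgHomOfSplits (F := ℚ) (K := L) ℂ (AlgebraicClosure ℚ)
    (fun x => IsAlgClosed.splits _)
  obtain ⟨σ, hσ⟩ := e.surjective τ.toRatAlgHom
  refine ⟨σ.toRingHom, fun x => ?_⟩
  have h1 := Algebra.IsAlgebraic.algHomEquivAlgHomOfSplits_apply_apply (F := ℚ) (K := L) ℂ
    (AlgebraicClosure ℚ) (fun x => IsAlgClosed.splits _) σ x
  have h2 : e σ x = τ x := by
    rw [hσ]
    rfl
  rw [← h2]
  exact h1.symm

/-- maps with good reduction outside `M` and many preperiodic points -/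
theorem good_fin (d D : ℕ) (hd : 2 ≤ d) : ∃ N : ℕ, ∀ M : ℕ, M ≠ 0 →
    ∃ Φ : Set (Fin 2 → MvPolynomial (Fin 2) (AlgebraicClosure ℚ)), Φ.Finite ∧
    ∀ (K : Type) [Field K] [NumberField K], Module.finrank ℚ K ≤ D →
    ∀ f : Fin 2 → MvPolynomial (Fin 2) K, (∀ i, (f i).IsHomogeneous d) →
      (∀ x : Fin 2 → AlgebraicClosure K, (∀ i, MvPolynomial.aeval x (f i) = 0) → x = 0) →
    (∀ v : FinitePlace K, v.val (M : K) = 1 → PotGood v.val d f) →
    ∀ X : Finset (Fin 2 → K), (∀ x ∈ X, x ≠ 0) → (∀ x ∈ X, ∀ y ∈ X, x ≠ y → wd x y ≠ 0) →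
      (∀ x ∈ X, ∃ m n : ℕ, m < n ∧ ∃ c : K, c ≠ 0 ∧ (ev f)^[n] x = c • (ev f)^[m] x) →
      N ≤ X.card →
    ∀ σ : K →+* AlgebraicClosure ℚ,
      ∃ (g : Fin 2 → MvPolynomial (Fin 2) K) (L : Matrix (Fin 2) (Fin 2) K) (c : K),
        L.det ≠ 0 ∧ c ≠ 0 ∧ (∀ x : Fin 2 → K, c • L.mulVec (ev f x) = ev g (L.mulVec x)) ∧
        (fun i => (g i).map σ) ∈ Φ := by
  classical
  obtain ⟨N, δ, η, hδ, hη, h⟩ := TH951.FE.final d hd D
  refine ⟨N, fun M hM => ?_⟩
  obtain ⟨Φ, hΦ, h⟩ := h M hM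
  refine ⟨Φ, hΦ, ?_⟩
  intro K _ _ hK f hf hz hred X hX0 hX hpre hN σ
  have h0 : rs f d ≠ 0 := Pool.Agent.TH450.PC.rs_ne_of_noZero (by omega) hf hz
  choose wi hwi using fun v : InfinitePlace K => exists_ext_inf v
  choose wf hwf using fun v : FinitePlace K => exists_ext_fin v
  have hM0 : (M : K) ≠ 0 := by exact_mod_cast hM
  have hfin := F4_finite_ne hM0
  have hs1 : ∀ w, 0 ≤ 1 + max (msz d f w) 0 := fun w => by
    have : 0 ≤ max (msz d f w) 0 := le_max_right _ _
    linarith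
  have hbig : 0 ≤ TH951.FE.big d f wi wf (hfin.toFinset.filter fun v => v.val (M : K) ≠ 1) :=
    add_nonneg (Finset.sum_nonneg fun v _ => mul_nonneg (Nat.cast_nonneg _) (hs1 _))
      (Finset.sum_nonneg fun v _ => hs1 _)
  obtain ⟨g, L, c, h1, h2, -, h4, h5⟩ := h K hK f hf hz wi hwi wf hwf hfin.toFinset (fun v hv =>
    hred v (by
      by_contra h1
      exact hv (by rw [Set.Finite.mem_toFinset]; exact h1))) (by
    have h1 : hfin.toFinset.filter (fun v => v.val (M : K) = 1) = ∅ := by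
      rw [Finset.filter_eq_empty_iff]
      intro v hv
      rw [Set.Finite.mem_toFinset] at hv
      exact hv
    rw [h1, Finset.sum_empty]
    exact mul_nonneg hδ.le hbig) X hN hX0 hX (fun x hx => by
      rw [hcan_pre hd hf h0 (hX0 x hx) (hpre x hx)]
      exact mul_nonneg hη.le hbig) σ
  exact ⟨g, L, c, h1, h2, h4, h5⟩

/-- **Points with good reduction of the moduli space.** -/
theorem good_count (d D : ℕ) (hd : 2 ≤ d) : ∃ N : ℕ, ∀ n : ℕ, N ≤ n → ∀ M : ℕ, M ≠ 0 →
    ∃ C : ℕ, ∀ Z : Finset (Sg d → ℂ), (∀ z ∈ Z, z ∈ V d n ℂ ∧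
      ∃ (L : Type) (_ : Field L) (_ : NumberField L) (τ : L →+* ℂ) (z' : Sg d → L),
        Module.finrank ℚ L ≤ D ∧ (∀ s, τ (z' s) = z s) ∧
        ∀ v : FinitePlace L, v.val (M : L) = 1 → PotGood v.val d (frm d z')) → Z.card ≤ C := by
  classical
  obtain ⟨N, hmain⟩ := good_fin d D hd
  refine ⟨max N 1, fun n hn M hM => ?_⟩
  obtain ⟨Φ, hΦ, hmain⟩ := hmain M hM
  have hd1 : 1 ≤ d := by omega
  have hn0 : 0 < n := lt_of_lt_of_le one_pos ((le_max_right _ _).trans hn)
  obtain ⟨B₀, hB₀⟩ := class_count d n hd hn0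
  obtain ⟨φ, hφ⟩ := exists_factor
  obtain ⟨𝒢, h𝒢⟩ : ∃ 𝒢 : Finset (Fin 2 → MvPolynomial (Fin 2) ℂ),
    𝒢 = hΦ.toFinset.image fun g i => (g i).map φ := ⟨_, rfl⟩
  refine ⟨𝒢.card * B₀, fun Z hZ => ?_⟩
  have hcl : ∀ z ∈ Z, ∃ G ∈ 𝒢, CJC (frm d z) G := by
    intro z hz
    obtain ⟨hzV, L, _, _, τ, z', hL, hz', hgd⟩ := hZ z hz
    have hz'V : z' ∈ V d n L := by
      rw [← V_map_iff τ]
      have h1 : (fun i => τ (z' i)) = z := funext hz'
      rw [h1]
      exact hzV
    have hrs := frm_rs hd1 hz'V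
    have hmap := Pool.Agent.Q103.RP.isMap_of_rs hd1 (fun i => mk_hom d _ i) hrs
    have hcfg := orb_cfg hd1 hn0 hz'V
    obtain ⟨W, hW⟩ : ∃ W : Fin n → Fin 2 → L, W = fun (i : Fin n) => (ev (frm d z'))^[(i : ℕ)] ![1, 0] := ⟨_, rfl⟩
    rw [← hW] at hcfg
    have hWi : Function.Injective W := by
      intro i j h
      by_contra hne
      apply hcfg.wd i j hne
      rw [h]
      unfold wd
      ring
    obtain ⟨σ, hσ⟩ := hφ L τ
    obtain ⟨g, A, c, hA, hc, hconj, hmem⟩ := hmain L hL (frm d z') (fun i => mk_hom d _ i) hmap.2 hgd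
      (Finset.univ.image W) (by
        intro x hx
        obtain ⟨i, -, rfl⟩ := Finset.mem_image.1 hx
        exact hcfg.ne i) (by
        intro x hx y hy hne
        obtain ⟨i, -, rfl⟩ := Finset.mem_image.1 hx
        obtain ⟨j, -, rfl⟩ := Finset.mem_image.1 hy
        exact hcfg.wd i j fun h => hne (by rw [h])) (by
        intro x hx
        obtain ⟨i, -, rfl⟩ := Finset.mem_image.1 hx
        obtain ⟨a, b, hab, -, h1⟩ := hcfg.pre (fun i => mk_hom d _ i) i
        have ha := (hcfg.iter (fun i => mk_hom d _ i) i a)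
        have hb := (hcfg.iter (fun i => mk_hom d _ i) i b)
        obtain ⟨ca, hca, ha⟩ := ha
        obtain ⟨cb, hcb, hb⟩ := hb
        have hne : ∀ m, (ev (frm d z'))^[m] (W i) ≠ 0 := fun m => by
          obtain ⟨cm, hcm, hm⟩ := hcfg.iter (fun i => mk_hom d _ i) i m
          rw [hm]
          exact smul_ne_zero hcm (hcfg.ne _)
        obtain ⟨e, he, h2⟩ := (Pool.Agent.Q103.RP.Few.wd_zero_iff (hne a) (hne b)).1 h1
        exact ⟨a, b, hab, e, he, h2⟩) (by
        rw [Finset.card_image_of_injective _ hWi, Finset.card_univ, Fintype.card_fin]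
        exact (le_max_left _ _).trans hn) σ
    have h1 := (cjc_of τ hA hc hconj).symm'
    rw [frm_map τ d z'] at h1
    have h3 : (fun s => τ (z' s)) = z := funext hz'
    rw [h3] at h1
    refine ⟨fun i => (g i).map τ, ?_, h1⟩
    rw [h𝒢, Finset.mem_image]
    refine ⟨fun i => (g i).map σ, hΦ.mem_toFinset.2 hmem, ?_⟩
    funext i
    have h4 : φ.comp σ = τ := RingHom.ext hσ
    rw [MvPolynomial.map_map, h4]
  have hsub : Z ⊆ 𝒢.biUnion fun G => Z.filter fun z => CJC (frm d z) G := by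
    intro z hz
    obtain ⟨G, hG, h1⟩ := hcl z hz
    exact Finset.mem_biUnion.2 ⟨G, hG, Finset.mem_filter.2 ⟨hz, h1⟩⟩
  refine (Finset.card_le_card hsub).trans (Finset.card_biUnion_le.trans ?_)
  refine (Finset.sum_le_card_nsmul _ _ B₀ fun G _ => ?_).trans (le_of_eq (smul_eq_mul _ _))
  refine hB₀ G _ fun z hz => ?_
  obtain ⟨h1, h2⟩ := Finset.mem_filter.1 hz
  exact ⟨(hZ z h1).1, h2⟩

section

variable {k σ β ι : Type} [Field k] [Algebra k ℂ] {d n : ι → ℕ}

/-- The complex point `y` of `U` comes from a point over a number field `L`, an extension of `k` of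
degree at most `D` over `ℚ`, such that the maps given by the point have potentially good reduction at
all finite places of `L` which do not divide `M`. -/
def Family.Good (X : Family k σ β ι d n) (D M : ℕ) (y : σ → ℂ) : Prop :=
  ∃ (L : Type) (_ : Field L) (_ : NumberField L) (_ : Algebra k L) (τ : L →ₐ[k] ℂ) (z : σ → L),
    Module.finrank ℚ L ≤ D ∧ (∀ i, τ (z i) = y i) ∧
    ∀ j, ∀ v : FinitePlace L, v.val (M : L) = 1 → PotGood v.val (d j) (frm (d j) (X.am z j))

end

/-- **Points with good reduction in the fibres**, uniformly. -/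
theorem good : ∃ B : ℕ → ℕ → ℕ, ∀ (k σ β ι : Type) [Field k] [Countable k] [Finite σ]
    [Fintype β] [Fintype ι] [Algebra k ℂ] (d n : ι → ℕ) (X : Family k σ β ι d n),
    (∀ j, 2 ≤ d j) → ∀ D : ℕ, (∀ j, B (d j) D ≤ n j) → ∀ M : ℕ, M ≠ 0 →
    ∃ C : ℕ, ∀ (c : β → ℂ) (S : Finset (σ → ℂ)),
      (∀ y ∈ S, y ∈ Pts X.I X.J ℂ ∧ (∀ i, MvPolynomial.aeval y (X.b i) = c i) ∧ X.Good D M y) →
      S.card ≤ C := by
  classical
  choose N hN using fun (d D : ℕ) (hd : 2 ≤ d) => good_count d D hd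
  refine ⟨fun d D => if h : 2 ≤ d then N d D h else 0, ?_⟩
  intro k σ β ι _ _ _ _ _ _ d n X hd D hn M hM
  have hn' : ∀ j, N (d j) D (hd j) ≤ n j := fun j => by
    have h1 : (if h : 2 ≤ d j then N (d j) D h else 0) ≤ n j := hn j
    rwa [dif_pos (hd j)] at h1
  choose C hC using fun j => hN (d j) D (hd j) (n j) (hn' j) M hM
  obtain ⟨m, hm⟩ := X.count
  refine ⟨m * ∏ j, C j, fun c S hS => ?_⟩
  have h1 := hm c S (fun y hy => ⟨(hS y hy).1, (hS y hy).2.1⟩)
    (fun j => S.image fun y => X.am y j) fun y hy j => Finset.mem_image_of_mem _ hy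
  refine h1.trans (Nat.mul_le_mul_left m (Finset.prod_le_prod (fun _ _ => Nat.zero_le _)
    fun j _ => ?_))
  refine hC j (S.image fun y => X.am y j) fun z hz => ?_
  obtain ⟨y, hy, rfl⟩ := Finset.mem_image.1 hz
  obtain ⟨h4, -, L, _, _, _, τ, z, h5, h6, h7⟩ := hS y hy
  refine ⟨X.maps y h4 j, L, inferInstance, inferInstance, τ.toRingHom, X.am z j, h5, ?_, h7 j⟩
  intro s
  have h8 : (fun i => τ (z i)) = y := funext h6
  have h9 := MvPolynomial.comp_aeval_apply (f := z) (φ := τ) (X.a j s)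
  rw [h8] at h9
  exact h9

end Pool.Agent.J6H55.QF
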