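import Pool.Agent.J6H55.QF.Sub
import Pool.Agent.J6H55.JM.Pic

/-!
# Holomorphic maps of the punctured disc and of the plane
-/

set_option autoImplicit false
set_option linter.unusedSectionVars false

namespace Pool.Agent.J6H55.QF

open Polynomial Filter Topology
open Pool.Agent.Q41.GT (Sg V num den crs rats)
open Pool.Agent.Y221.AP
open Pool.Agent.Q53.EC (minf_of_alg_adjoin)
open Pool.Agent.J6H55.JM (Dat SDat alg_up elt_trans crs_image)
open Pool.Agent.Q103.EC (b_mer)
open Pool.Agent.W603.BP (Ext)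

/-- the field of the meromorphic functions near a puncture -/
def MM : Type := MK

noncomputable instance instFieldMM : Field MM := inferInstanceAs (Field MK)

noncomputable instance instAlgebraMM : Algebra ℂ MM := inferInstanceAs (Algebra ℂ MK)

/-- the class of a meromorphic function -/
noncomputable def clm (f : ℂ → ℂ) (hf : MeromorphicOn f Om) : MM := cl f hf

/-- the class of a meromorphic function, as a homomorphism -/
noncomputable def qm : MerS →ₐ[ℂ] MM :=
  { toFun := fun x => (Ideal.Quotient.mk MJ x : MK)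
    map_one' := map_one (Ideal.Quotient.mk MJ)
    map_mul' := map_mul (Ideal.Quotient.mk MJ)
    map_zero' := map_zero (Ideal.Quotient.mk MJ)
    map_add' := map_add (Ideal.Quotient.mk MJ)
    commutes' := fun _ => rfl }

theorem qm_apply (f : ℂ → ℂ) (hf : MeromorphicOn f Om) : qm ⟨f, hf⟩ = clm f hf := rfl

/-- meromorphic at the puncture -/
def MIm (x : MM) : Prop := MInf x

/-- the field of the functions which are meromorphic at the puncture -/
def MIF : IntermediateField ℂ MM := MI

theorem mim_of_alg {C : Set MM} (hC : ∀ c ∈ C, MIm c) {u : MM}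
    (hu : IsAlgebraic (IntermediateField.adjoin ℂ C) u) : MIm u :=
  minf_of_alg_adjoin hC hu

theorem mer_mm (d : ℕ) (hd : 2 ≤ d) : ∃ B : ℕ, ∀ p q : MM[X], p.natDegree ≤ d → q.natDegree = d →
    IsCoprime p q → ∀ P : Finset MM, Pool.Agent.Q41.SU.Stab p q P → B ≤ P.card →
    ∀ c ∈ crs P, MIm c :=
  b_mer d hd

/-- **Points over the field of the meromorphic functions near a puncture.** -/
theorem mi : ∃ B : ℕ → ℕ, ∀ (k σ β ι : Type) [Field k] [Countable k] [Finite σ] [Fintype β]
    [Fintype ι] [Algebra k ℂ] [Algebra k MM] [IsScalarTower k ℂ MM] (d n : ι → ℕ)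
    (X : Family k σ β ι d n), (∀ j, 2 ≤ d j) → (∀ j, B (d j) ≤ n j) → ∀ y ∈ Pts X.I X.J MM,
    (∀ j s, MIm (X.am y j s)) ∧
      ((∀ i, MIm (MvPolynomial.aeval y (X.b i))) → ∀ i, MIm (y i)) := by
  classical
  choose B hB using mer_mm
  refine ⟨fun d => max (if h : 2 ≤ d then B d h else 0) (3 * d + 7), ?_⟩
  intro k σ β ι _ _ _ _ _ _ _ _ d n X hd hn y hy
  have hn1 : ∀ j, 3 * d j + 7 ≤ n j := fun j => (le_max_right _ _).trans (hn j)
  have hn2 : ∀ j, B (d j) (hd j) ≤ n j := fun j => by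
    have h1 : (if h : 2 ≤ d j then B (d j) h else 0) ≤ n j := (le_max_left _ _).trans (hn j)
    rwa [dif_pos (hd j)] at h1
  have hV : ∀ j, X.am y j ∈ V (d j) (n j) MM := fun j => X.maps' hy j
  have key : ∀ j s, MIm (X.am y j s) := by
    intro j s
    obtain ⟨p, q, P, hS, hc⟩ := V_sdat (k := ℂ) (hd j) (hn1 j) (hV j)
    have hdat := hS.toDat (K := MM)
    have hcard : (P.image (algebraMap (IntermediateField.adjoin ℂ (Set.range (X.am y j))) MM)).card =
        n j := by
      refine (Finset.card_image_of_injective _ (RingHom.injective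
        (algebraMap (IntermediateField.adjoin ℂ (Set.range (X.am y j))) MM))).trans hc
    have hmi := hB (d j) (hd j) _ _ hdat.deg_p hdat.deg_q hdat.coprime _ hdat.stab
      (by rw [hcard]; exact hn2 j)
    refine mim_of_alg hmi ?_
    have h1 := hS.alg.isAlgebraic (⟨X.am y j s, IntermediateField.subset_adjoin _ _ ⟨s, rfl⟩⟩ :
      IntermediateField.adjoin ℂ (Set.range (X.am y j)))
    exact alg_up (k := ℂ) (k' := ℂ) (crs_image P) h1
  refine ⟨key, fun hb i => ?_⟩
  have h2 := X.alg_over (κ := ℂ) hy (L := MIF) (fun i => isAlgebraic_algebraMap (⟨_, hb i⟩ : MIF))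
    (fun j s => isAlgebraic_algebraMap (⟨_, key j s⟩ : MIF)) i
  refine mim_of_alg (C := {x | MIm x}) (fun c hc => hc) ?_
  have h3 : IntermediateField.adjoin ℂ {x | MIm x} = MIF := by
    apply le_antisymm
    · rw [IntermediateField.adjoin_le_iff]
      exact fun x hx => hx
    · intro x hx
      exact IntermediateField.subset_adjoin _ _ hx
  rw [h3]
  exact h2

/-- polynomials in meromorphic functions -/
theorem aeval_cl {k σ : Type} [Field k] [Fintype σ] [Algebra k ℂ] [Algebra k MM]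
    [IsScalarTower k ℂ MM] {f : σ → ℂ → ℂ} (hf : ∀ i, MeromorphicOn (f i) Om)
    (G : MvPolynomial σ k) :
    ∃ h : MeromorphicOn (fun t => MvPolynomial.aeval (fun i => f i t) G) Om,
      MvPolynomial.aeval (fun i => clm (f i) (hf i)) G =
        clm (fun t => MvPolynomial.aeval (fun i => f i t) G) h := by
  let u : σ → MerS := fun i => ⟨f i, hf i⟩
  obtain ⟨G', hG'⟩ : ∃ G' : MvPolynomial σ ℂ, G' = MvPolynomial.map (algebraMap k ℂ) G := ⟨_, rfl⟩
  have h1 : MvPolynomial.aeval (fun i => clm (f i) (hf i)) G' = qm (MvPolynomial.aeval u G') :=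
    (MvPolynomial.comp_aeval_apply (f := u) (φ := qm) G').symm
  have h2 : ∀ t, (MvPolynomial.aeval u G').1 t = MvPolynomial.aeval (fun i => f i t) G := by
    intro t
    have h3 : (MvPolynomial.aeval u G').1 t = evS t (MvPolynomial.aeval u G') := rfl
    have h4 : evS t (MvPolynomial.aeval u G') = MvPolynomial.aeval (fun i => f i t) G' :=
      MvPolynomial.comp_aeval_apply (f := u) (φ := evS t) G'
    rw [h3, h4, hG', MvPolynomial.aeval_map_algebraMap]
  have h5 : (MvPolynomial.aeval u G').1 = fun t => MvPolynomial.aeval (fun i => f i t) G := funext h2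
  have h7 : MeromorphicOn (fun t => MvPolynomial.aeval (fun i => f i t) G) Om := by
    rw [← h5]
    exact (MvPolynomial.aeval u G').2
  refine ⟨h7, ?_⟩
  have h6 : MvPolynomial.aeval (fun i => clm (f i) (hf i)) G =
      MvPolynomial.aeval (fun i => clm (f i) (hf i)) G' := by
    rw [hG', MvPolynomial.aeval_map_algebraMap]
  rw [h6, h1, ← qm_apply]
  congr 1
  exact Subtype.ext h5

/-- the punctured unit disc -/
def PD : Set ℂ := {z | z ≠ 0 ∧ ‖z‖ < 1}

theorem inv_PD {z : ℂ} (hz : z ∈ Om) : z⁻¹ ∈ PD := by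
  have h1 : (1 : ℝ) < ‖z‖ := hz
  refine ⟨inv_ne_zero fun h0 => ?_, ?_⟩
  · rw [h0, norm_zero] at h1
    linarith
  · rw [norm_inv]
    exact inv_lt_one_of_one_lt₀ h1

theorem inv_Om {z : ℂ} (hz : z ∈ PD) : z⁻¹ ∈ Om := by
  show (1 : ℝ) < ‖z⁻¹‖
  rw [norm_inv]
  exact (one_lt_inv₀ (norm_pos_iff.2 hz.1)).2 hz.2

theorem PD_open : IsOpen PD := by
  have h1 : PD = {z : ℂ | z ≠ 0} ∩ {z : ℂ | ‖z‖ < 1} := rfl
  rw [h1]
  exact isOpen_ne.inter (isOpen_lt continuous_norm continuous_const)

/-- A holomorphic map of the open set `Ω` to the closure of `U`, which meets `U`. -/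
structure HolMap {k σ : Type} [Field k] [Algebra k ℂ] (I J : Set (MvPolynomial σ k)) (Ω : Set ℂ)
    (f : σ → ℂ → ℂ) : Prop where
  hol : ∀ i, DifferentiableOn ℂ (f i) Ω
  eqs : ∀ z ∈ Ω, ∀ F ∈ I, MvPolynomial.aeval (fun i => f i z) F = 0
  mem : ∃ z ∈ Ω, (fun i => f i z) ∈ Pts I J ℂ

theorem continuous_aeval {k σ : Type} [Field k] [Finite σ] [Algebra k ℂ] (G : MvPolynomial σ k) :
    Continuous fun x : σ → ℂ => MvPolynomial.aeval x G := by
  have h1 : (fun x : σ → ℂ => MvPolynomial.aeval x G) =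
      fun x => MvPolynomial.eval x (MvPolynomial.map (algebraMap k ℂ) G) := by
    funext x
    rw [MvPolynomial.eval_map, ← MvPolynomial.aeval_def]
  rw [h1]
  exact MvPolynomial.continuous_eval _

/-- the value of the class of an analytic function -/
theorem mero_of_minf {g : ℂ → ℂ} (hg : ∀ z ∈ Om, AnalyticAt ℂ g z) {h : MeromorphicOn g Om}
    (hm : MInf (cl g h)) : MeromorphicAt (fun w => g w⁻¹) 0 := by
  have h1 : (fun w => Fn (cl g h) w⁻¹) =ᶠ[𝓝[≠] 0] fun w => g w⁻¹ := by
    have h2 : ∀ᶠ w in 𝓝[≠] (0 : ℂ), w ∈ PD := by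
      rw [eventually_nhdsWithin_iff]
      filter_upwards [Metric.ball_mem_nhds (0 : ℂ) one_pos] with w hw hw0
      exact ⟨hw0, by simpa using hw⟩
    filter_upwards [h2, MInf.reg hm] with w hw hreg
    exact eq_of_cod (f := Fn (cl g h)) (g := g) (Fn_cl_codis h) (inv_Om hw)
      hreg.continuousAt (hg _ (inv_Om hw)).continuousAt
  exact MeromorphicAt.congr hm h1

/-- **Holomorphic maps of the punctured disc.** -/
theorem disc : ∃ B : ℕ → ℕ, ∀ (k σ β ι : Type) [Field k] [Countable k] [Finite σ] [Fintype β]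
    [Fintype ι] [Algebra k ℂ] (d n : ι → ℕ) (X : Family k σ β ι d n), (∀ j, 2 ≤ d j) →
    (∀ j, B (d j) ≤ n j) → ∀ f : σ → ℂ → ℂ, HolMap X.I X.J PD f →
    (∀ j s, MeromorphicAt (fun z => X.am (fun i => f i z) j s) 0) ∧
      ((∀ i, MeromorphicAt (fun z => MvPolynomial.aeval (fun i => f i z) (X.b i)) 0) →
        ∀ i, MeromorphicAt (f i) 0) := by
  classical
  obtain ⟨B, hB⟩ := mi
  refine ⟨B, ?_⟩
  intro k σ β ι _ _ _ _ _ _ d n X hd hn f hf
  have := Fintype.ofFinite σ
  letI : Algebra k MM := ((algebraMap ℂ MM).comp (algebraMap k ℂ)).toAlgebra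
  haveI : IsScalarTower k ℂ MM := IsScalarTower.of_algebraMap_eq fun x => rfl
  obtain ⟨g, hg⟩ : ∃ g : σ → ℂ → ℂ, g = fun i z => f i z⁻¹ := ⟨_, rfl⟩
  have hgv : ∀ z, (fun i => g i z) = fun i => f i z⁻¹ := fun z => by rw [hg]
  have hOm0 : ∀ {z : ℂ}, z ∈ Om → z ≠ 0 := by
    intro z hz h0
    have h1 : (1 : ℝ) < ‖z‖ := hz
    rw [h0, norm_zero] at h1
    linarith
  have hgan : ∀ i, ∀ z ∈ Om, AnalyticAt ℂ (g i) z := by
    intro i z hz
    have h1 : g i = (f i) ∘ fun z => z⁻¹ := by
      rw [hg]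
      rfl
    rw [h1]
    have h2 : AnalyticAt ℂ (f i) z⁻¹ := (hf.hol i).analyticAt (PD_open.mem_nhds (inv_PD hz))
    exact AnalyticAt.comp h2 (analyticAt_inv (hOm0 hz))
  have hmer : ∀ i, MeromorphicOn (g i) Om := fun i z hz => (hgan i z hz).meromorphicAt
  have hcon : ∀ G : MvPolynomial σ k, ∀ z ∈ Om,
      AnalyticAt ℂ (fun t => MvPolynomial.aeval (fun i => g i t) G) z := by
    intro G z hz
    have h1 : DifferentiableOn ℂ (fun t => MvPolynomial.aeval (fun i => g i t) G) Om := by
      have h2 : ∀ i, DifferentiableOn ℂ (g i) Om := fun i z hz =>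
        (hgan i z hz).differentiableAt.differentiableWithinAt
      induction G using MvPolynomial.induction_on with
      | C a =>
        simp only [MvPolynomial.aeval_C]
        exact differentiableOn_const _
      | add p q hp hq =>
        simp only [map_add]
        exact hp.add hq
      | mul_X p i hp =>
        simp only [map_mul, MvPolynomial.aeval_X]
        exact hp.mul (h2 i)
    exact h1.analyticAt (Om_open.mem_nhds hz)
  obtain ⟨y, hy⟩ : ∃ y : σ → MM, y = fun i => clm (g i) (hmer i) := ⟨_, rfl⟩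
  have hval : ∀ G : MvPolynomial σ k, ∃ h : MeromorphicOn (fun t =>
      MvPolynomial.aeval (fun i => g i t) G) Om, MvPolynomial.aeval y G =
        clm (fun t => MvPolynomial.aeval (fun i => g i t) G) h := fun G => by
    rw [hy]
    exact aeval_cl hmer G
  have hyP : y ∈ Pts X.I X.J MM := by
    refine ⟨fun F hF => ?_, ?_⟩
    · obtain ⟨h, h1⟩ := hval F
      rw [h1]
      refine cl_eq_zero.2 ?_
      filter_upwards [cod_Om] with t ht
      rw [hgv]
      exact hf.eqs _ (inv_PD ht) F hF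
    · obtain ⟨z0, hz0, -, G, hG, h0⟩ := hf.mem
      refine ⟨G, hG, fun h1 => h0 ?_⟩
      obtain ⟨h, h2⟩ := hval G
      rw [h2] at h1
      have h3 := eq_of_cod (g := fun _ => (0 : ℂ)) (cl_eq_zero.1 h1) (inv_Om hz0)
        (hcon G _ (inv_Om hz0)).continuousAt continuousAt_const
      have h4 : (fun i => g i z0⁻¹) = fun i => f i z0 := by
        rw [hgv, inv_inv]
      rw [h4] at h3
      exact h3
  obtain ⟨hm1, hm2⟩ := hB k σ β ι d n X hd hn y hyP
  have hback : ∀ G : MvPolynomial σ k, MIm (MvPolynomial.aeval y G) →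
      MeromorphicAt (fun z => MvPolynomial.aeval (fun i => f i z) G) 0 := by
    intro G hG
    obtain ⟨h, h1⟩ := hval G
    rw [h1] at hG
    have h2 := mero_of_minf (hcon G) hG
    have h3 : (fun w : ℂ => MvPolynomial.aeval (fun i => g i w⁻¹) G) =
        fun z => MvPolynomial.aeval (fun i => f i z) G := by
      funext w
      rw [hgv, inv_inv]
    rw [h3] at h2
    exact h2
  refine ⟨fun j s => hback (X.a j s) (hm1 j s), fun hb i => ?_⟩
  have h1 := hm2 (fun i => ?_) i
  · have h2 := hback (MvPolynomial.X i) (by rw [MvPolynomial.aeval_X]; exact h1)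
    simp only [MvPolynomial.aeval_X] at h2
    exact h2
  · obtain ⟨h, h2⟩ := hval (X.b i)
    rw [h2]
    have h3 : (fun w => Fn (cl (fun t => MvPolynomial.aeval (fun i => g i t) (X.b i)) h) w⁻¹)
        =ᶠ[𝓝[≠] 0] fun z => MvPolynomial.aeval (fun i => f i z) (X.b i) := by
      have h4 : ∀ᶠ w in 𝓝[≠] (0 : ℂ), w ∈ PD := by
        rw [eventually_nhdsWithin_iff]
        filter_upwards [Metric.ball_mem_nhds (0 : ℂ) one_pos] with w hw hw0
        exact ⟨hw0, by simpa using hw⟩
      filter_upwards [h4] with w hw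
      have h5 := (Fn_cl h (inv_Om hw) (hcon (X.b i) _ (inv_Om hw))).eq_of_nhds
      rw [h5]
      have h6 : (fun i => g i w⁻¹) = fun i => f i w := by
        rw [hgv, inv_inv]
      rw [h6]
    exact (hb i).congr h3.symm

end Pool.Agent.J6H55.QF
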