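import Pool.Agent.J6H55.QF.Cls

/-!
# Points of small height of the moduli spaces
-/

set_option autoImplicit false

namespace Pool.Agent.J6H55.QF

open Polynomial
open Pool.Agent.Q41.GT (Sg V num den lift)
open Pool.Agent.W277.UH (ratP1)
open Pool.Agent.Q103.RP (mk mk_hom mk_eval mk_map cfv rs_ne coeffs_mk Cfg isMap_of_rs)
open Pool.Agent.Q103.RP.Few (IsMap coeffs Conj)
open Pool.Agent.H951R3.PB (wd ev rs)
open Pool.Agent.Q256.FX (CJC)

theorem pt_smul' {K : Type} [Field K] {a : K} (ha : a ≠ 0) (v : Fin 2 → K) :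
    Pool.Agent.Q41.GT.pt (a • v) = Pool.Agent.Q41.GT.pt v := by
  unfold Pool.Agent.Q41.GT.pt
  by_cases h : v 1 = 0
  · rw [if_pos h, if_pos (by simp [h])]
  · rw [if_neg h, if_neg (by simp [h, ha])]
    simp only [Pi.smul_apply, smul_eq_mul]
    rw [mul_div_mul_left _ _ ha]

/-- the next element -/
def nxt (n : ℕ) (hn : 0 < n) (i : Fin n) : Fin n := ⟨(i + 1) % n, Nat.mod_lt _ hn⟩

/-- the orbit of infinity -/
theorem orb_cfg {K : Type} [Field K] {d n : ℕ} (hd : 1 ≤ d) (hn : 0 < n) {z : Sg d → K}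
    (hz : z ∈ V d n K) :
    Cfg n (nxt n hn) (frm d z) fun i => (ev (frm d z))^[i] ![1, 0] := by
  have hit := fun m => frm_iter hd hz (e1_ne (K := K)) m
  refine ⟨fun i => (hit i).1, fun i j hij h0 => hij ?_, fun i => ?_⟩
  · obtain ⟨a, ha, h1⟩ := (Pool.Agent.Q103.RP.Few.wd_zero_iff (hit i).1 (hit j).1).1 h0
    have h2 := (hit i).2
    have h3 := (hit j).2
    rw [h1, pt_smul' ha, ← h2, pt_e1] at h3
    have h4 := hz.2
    apply Fin.ext
    exact ((Function.iterate_eq_iterate_iff_of_lt_minimalPeriod (by rw [h4]; exact j.2)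
      (by rw [h4]; exact i.2)).1 h3).symm
  · show ∃ c : K, c ≠ 0 ∧ ev (frm d z) ((ev (frm d z))^[i] ![1, 0]) =
      c • (ev (frm d z))^[((i : ℕ) + 1) % n] ![1, 0]
    rw [← Function.iterate_succ_apply' (ev (frm d z))]
    show ∃ c : K, c ≠ 0 ∧ (ev (frm d z))^[(i : ℕ) + 1] ![1, 0] =
      c • (ev (frm d z))^[((i : ℕ) + 1) % n] ![1, 0]
    have hi := i.2
    rcases Nat.lt_or_ge ((i : ℕ) + 1) n with h | h
    · exact ⟨1, one_ne_zero, by rw [Nat.mod_eq_of_lt h, one_smul]⟩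
    · have h1 : (i : ℕ) + 1 = n := by omega
      rw [h1, Nat.mod_self]
      obtain ⟨h2, h3⟩ := hit n
      have h4 := Function.iterate_minimalPeriod (f := ratP1 (num d z) (den d z) d)
        (x := (none : Option K))
      rw [hz.2] at h4
      rw [pt_e1, h4] at h3
      have h5 := pt_none h3.symm
      refine ⟨((ev (frm d z))^[n] ![1, 0]) 0, fun h6 => h2 ?_, ?_⟩
      · funext l
        fin_cases l
        · exact h6
        · exact h5
      · funext l
        fin_cases l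
        · simp
        · simpa using h5

theorem frm_map {K L : Type} [Field K] [Field L] (τ : K →+* L) (d : ℕ) (z : Sg d → K) :
    (fun i => (frm d z i).map τ) = frm d fun s => τ (z s) := by
  funext i
  unfold frm
  rw [mk_map]
  congr 1
  funext s
  rw [Pool.Agent.Q285.GT.num_map, Pool.Agent.Q285.GT.den_map]
  unfold cfv
  split_ifs
  · rw [coeff_map]
  · rw [coeff_map]

/-- **Points of small height of the moduli space.** -/
theorem low_count (d D : ℕ) (hd : 2 ≤ d) (ε : ℝ) (hε : 0 < ε) : ∃ N : ℕ, ∀ n : ℕ, N ≤ n →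
    ∃ C : ℝ, ∀ T : ℝ, 1 ≤ T → ∀ Z : Finset (Sg d → ℂ), (∀ z ∈ Z, z ∈ V d n ℂ ∧
      ∃ (L : Type) (_ : Field L) (_ : NumberField L) (τ : L →+* ℂ) (z' : Sg d → L),
        Module.finrank ℚ L ≤ D ∧ (∀ s, τ (z' s) = z s) ∧
        Height.mulHeight (cfv d (num d z') (den d z')) ≤ T ^ Module.finrank ℚ L) →
      (Z.card : ℝ) ≤ C * T ^ ε := by
  classical
  obtain ⟨N, C, hfew⟩ := Pool.Agent.Q103.RP.Few.result d D hd ε hε
  refine ⟨N + 1, fun n hn => ?_⟩
  have hd1 : 1 ≤ d := by omega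
  have hn0 : 0 < n := by omega
  obtain ⟨B₀, hB₀⟩ := class_count d n hd hn0
  refine ⟨B₀ * C, fun T hT Z hZ => ?_⟩
  obtain ⟨𝒢, h𝒢, hmain⟩ := hfew T hT
  have hcl : ∀ z ∈ Z, ∃ G ∈ 𝒢, CJC (frm d z) G := by
    intro z hz
    obtain ⟨hzV, L, _, _, τ, z', hL, hz', hht⟩ := hZ z hz
    have hz'V : z' ∈ V d n L := by
      rw [← V_map_iff τ]
      have h1 : (fun i => τ (z' i)) = z := funext hz'
      rw [h1]
      exact hzV
    have hrs := frm_rs hd1 hz'V
    have hmap : IsMap d (frm d z') := isMap_of_rs hd1 (fun i => mk_hom d _ i) hrs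
    rcases hmain L hL (frm d z') hmap (by
      unfold frm
      rw [coeffs_mk]
      exact hht) with h1 | h1
    · obtain ⟨G, hG, h2⟩ := h1 τ
      rw [frm_map τ d z'] at h2
      have h3 : (fun s => τ (z' s)) = z := funext hz'
      rw [h3] at h2
      exact ⟨G, hG, h2⟩
    · exfalso
      have h2 := (orb_cfg hd1 hn0 hz'V).many hd1 (fun i => mk_hom d _ i) hrs
      have h3 := h2.trans h1.1
      have h4 : n ≤ N := by exact_mod_cast h3
      omega
  have hsub : Z ⊆ 𝒢.biUnion fun G => Z.filter fun z => CJC (frm d z) G := by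
    intro z hz
    obtain ⟨G, hG, h1⟩ := hcl z hz
    exact Finset.mem_biUnion.2 ⟨G, hG, Finset.mem_filter.2 ⟨hz, h1⟩⟩
  have hcard : Z.card ≤ 𝒢.card * B₀ := by
    refine (Finset.card_le_card hsub).trans (Finset.card_biUnion_le.trans ?_)
    refine (Finset.sum_le_card_nsmul _ _ B₀ fun G _ => ?_).trans (le_of_eq (smul_eq_mul _ _))
    refine hB₀ G _ fun z hz => ?_
    obtain ⟨h1, h2⟩ := Finset.mem_filter.1 hz
    exact ⟨(hZ z h1).1, h2⟩
  calc (Z.card : ℝ) ≤ (𝒢.card : ℝ) * B₀ := by exact_mod_cast hcard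
    _ ≤ (C * T ^ ε) * B₀ := by gcongr
    _ = _ := by ring

end Pool.Agent.J6H55.QF
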