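import Pool.Agent.J6H55.QF.Hol

/-!
# Holomorphic maps of the plane
-/

set_option autoImplicit false

namespace Pool.Agent.J6H55.QF

open Filter Topology Complex
open Pool.Agent.Q41.GT (Sg V)

theorem exp_seq {p : ℂ} (hp : p ≠ 0) : Tendsto (fun m : ℕ =>
    (log p + (m + 1 : ℕ) * (2 * Real.pi * I))⁻¹) atTop (𝓝[≠] 0) := by
  have him : ∀ m : ℕ, (log p + (m + 1 : ℕ) * (2 * Real.pi * I)).im =
      (log p).im + (m + 1 : ℕ) * (2 * Real.pi) := by
    intro m
    simp
  have h1 : Tendsto (fun m : ℕ => ‖log p + (m + 1 : ℕ) * (2 * Real.pi * I)‖) atTop atTop := by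
    refine tendsto_atTop_mono (f := fun m : ℕ => (log p).im + (m + 1 : ℕ) * (2 * Real.pi)) ?_ ?_
    · intro m
      rw [← him]
      exact (le_abs_self _).trans (Complex.abs_im_le_norm _)
    · refine tendsto_atTop_add_const_left _ _ ?_
      refine Tendsto.atTop_mul_const (by positivity) ?_
      exact tendsto_natCast_atTop_atTop.comp (tendsto_add_atTop_nat 1)
  rw [tendsto_nhdsWithin_iff]
  refine ⟨?_, ?_⟩
  · rw [tendsto_zero_iff_norm_tendsto_zero]
    simp only [norm_inv]
    exact h1.inv_tendsto_atTop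
  · filter_upwards [h1.eventually_gt_atTop 0] with m hm
    exact inv_ne_zero (norm_pos_iff.1 hm)

theorem exp_val {p : ℂ} (hp : p ≠ 0) (m : ℕ) :
    exp ((log p + (m + 1 : ℕ) * (2 * Real.pi * I))⁻¹)⁻¹ = p := by
  rw [inv_inv, Complex.exp_add, Complex.exp_log hp, Complex.exp_nat_mul_two_pi_mul_I, mul_one]

/-- an entire function with a pole at infinity after composition with `exp` is constant -/
theorem const_of_exp {u : ℂ → ℂ} (hu : Continuous u)
    (h : MeromorphicAt (fun z => u (exp z⁻¹)) 0) : ∀ z, u z = u 1 := by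
  have h1 : MeromorphicAt (fun z => u (exp z⁻¹) - u 1) 0 := h.sub (MeromorphicAt.const _ _)
  have h2 : ∀ᶠ z in 𝓝[≠] (0 : ℂ), u (exp z⁻¹) - u 1 = 0 := by
    rcases MeromorphicAt.eventually_eq_zero_or_eventually_ne_zero h1 with h2 | h2
    · exact h2
    · exfalso
      obtain ⟨m, hm⟩ := ((exp_seq one_ne_zero).eventually h2).exists
      apply hm
      rw [exp_val one_ne_zero, sub_self]
  have h3 : ∀ p : ℂ, p ≠ 0 → u p = u 1 := by
    intro p hp
    obtain ⟨m, hm⟩ := ((exp_seq hp).eventually h2).exists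
    rw [exp_val hp] at hm
    exact sub_eq_zero.1 hm
  intro z
  by_cases hz : z = 0
  · rw [hz]
    have h4 : Tendsto u (𝓝[≠] 0) (𝓝 (u 0)) := hu.continuousAt.tendsto.mono_left nhdsWithin_le_nhds
    have h5 : Tendsto u (𝓝[≠] 0) (𝓝 (u 1)) := by
      refine tendsto_const_nhds.congr' ?_
      filter_upwards [self_mem_nhdsWithin] with w hw
      exact (h3 w hw).symm
    exact tendsto_nhds_unique h4 h5
  · exact h3 z hz

/-- **Holomorphic maps of the plane.** -/
theorem plane : ∃ B : ℕ → ℕ, ∀ (k σ β ι : Type) [Field k] [Countable k] [Finite σ] [Fintype β]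
    [Fintype ι] [Algebra k ℂ] (d n : ι → ℕ) (X : Family k σ β ι d n), (∀ j, 2 ≤ d j) →
    (∀ j, B (d j) ≤ n j) → ∀ f : σ → ℂ → ℂ, HolMap X.I X.J Set.univ f →
    (∀ j s z, X.am (fun i => f i z) j s = X.am (fun i => f i 1) j s) ∧
      ((∀ i z, MvPolynomial.aeval (fun i => f i z) (X.b i) =
        MvPolynomial.aeval (fun i => f i 1) (X.b i)) → ∀ i z, f i z = f i 1) := by
  classical
  obtain ⟨B, hB⟩ := disc
  refine ⟨B, ?_⟩
  intro k σ β ι _ _ _ _ _ _ d n X hd hn f hf
  have hcf : ∀ i, Continuous (f i) := fun i =>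
    (differentiableOn_univ.1 (hf.hol i)).continuous
  have hcG : ∀ G : MvPolynomial σ k, Continuous fun z => MvPolynomial.aeval (fun i => f i z) G :=
    fun G => (continuous_aeval G).comp (continuous_pi hcf)
  have hg : HolMap X.I X.J PD fun i z => f i (exp z⁻¹) := by
    refine ⟨fun i => ?_, fun z _ F hF => hf.eqs _ (Set.mem_univ _) F hF, ?_⟩
    · refine (differentiableOn_univ.1 (hf.hol i)).comp_differentiableOn ?_
      refine Complex.differentiable_exp.comp_differentiableOn ?_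
      exact differentiableOn_inv.mono fun z hz => hz.1
    · obtain ⟨z0, -, h1, G, hG, h2⟩ := hf.mem
      -- a nonzero point in `U`
      obtain ⟨z1, hz1, hz1'⟩ : ∃ z1 : ℂ, z1 ≠ 0 ∧
          MvPolynomial.aeval (fun i => f i z1) G ≠ 0 := by
        have h3 : ∀ᶠ z in 𝓝 z0, MvPolynomial.aeval (fun i => f i z) G ≠ 0 :=
          (hcG G).continuousAt.eventually_ne h2
        by_cases hz : z0 = 0
        · have h4 : ∀ᶠ z in 𝓝[≠] z0, MvPolynomial.aeval (fun i => f i z) G ≠ 0 ∧ z ≠ 0 := by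
            refine (h3.filter_mono nhdsWithin_le_nhds).and ?_
            rw [hz]
            exact self_mem_nhdsWithin
          obtain ⟨z, hz1, hz2⟩ := h4.exists
          exact ⟨z, hz2, hz1⟩
        · exact ⟨z0, hz, h2⟩
      have h4 : ∀ᶠ m : ℕ in atTop, ((log z1 + (m + 1 : ℕ) * (2 * Real.pi * I))⁻¹) ∈ PD := by
        refine (exp_seq hz1).eventually ?_
        rw [eventually_nhdsWithin_iff]
        filter_upwards [Metric.ball_mem_nhds (0 : ℂ) one_pos] with w hw hw0
        exact ⟨hw0, by simpa using hw⟩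
      obtain ⟨m, hm⟩ := h4.exists
      refine ⟨_, hm, fun F hF => hf.eqs _ (Set.mem_univ _) F hF, G, hG, ?_⟩
      show MvPolynomial.aeval (fun i => f i (exp ((log z1 + (m + 1 : ℕ) * (2 * Real.pi * I))⁻¹)⁻¹)) G
        ≠ 0
      rw [exp_val hz1]
      exact hz1'
  obtain ⟨h1, h2⟩ := hB k σ β ι d n X hd hn _ hg
  refine ⟨fun j s z => ?_, fun hb i z => ?_⟩
  · exact const_of_exp (u := fun z => X.am (fun i => f i z) j s) (hcG (X.a j s)) (h1 j s) z
  · refine const_of_exp (u := f i) (hcf i) (h2 (fun i => ?_) i) z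
    have h3 : (fun z => MvPolynomial.aeval (fun i => f i (exp z⁻¹)) (X.b i)) =
        fun _ => MvPolynomial.aeval (fun i => f i 1) (X.b i) := funext fun z => hb i _
    rw [h3]
    exact MeromorphicAt.const _ _

end Pool.Agent.J6H55.QF
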