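import Pool.Agent.J6H55.QF.Sub
import Pool.Agent.J6H55.QF.Low

/-!
# Points of small height in the fibres
-/

set_option autoImplicit false

namespace Pool.Agent.J6H55.QF

open Polynomial
open Pool.Agent.Q41.GT (Sg V num den)
open Pool.Agent.Q103.RP (cfv)

section

variable {k σ β ι : Type} [Field k] [Algebra k ℂ] {d n : ι → ℕ}

/-- The complex point `y` of `U` comes from a point over a number field `L`, an extension of `k` of
degree at most `D` over `ℚ`, such that the maps given by the point have absolute height at most `T`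
(the relative height over `L` of the vector of the coefficients is at most `T ^ [L : ℚ]`). -/
def Family.Low (X : Family k σ β ι d n) (D : ℕ) (T : ℝ) (y : σ → ℂ) : Prop :=
  ∃ (L : Type) (_ : Field L) (_ : NumberField L) (_ : Algebra k L) (τ : L →ₐ[k] ℂ) (z : σ → L),
    Module.finrank ℚ L ≤ D ∧ (∀ i, τ (z i) = y i) ∧
    ∀ j, Height.mulHeight (cfv (d j) (num (d j) (X.am z j)) (den (d j) (X.am z j))) ≤
      T ^ Module.finrank ℚ L

end

theorem Family.count {k σ β ι : Type} [Field k] [Countable k] [Finite σ] [Fintype β] [Fintype ι]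
    [Algebra k ℂ] {d n : ι → ℕ} (X : Family k σ β ι d n) : ∃ m : ℕ, ∀ (c : β → ℂ)
    (S : Finset (σ → ℂ)), (∀ y ∈ S, y ∈ Pts X.I X.J ℂ ∧
      ∀ i, MvPolynomial.aeval y (X.b i) = c i) → ∀ (Z : ∀ j, Finset (Sg (d j) → ℂ)),
      (∀ y ∈ S, ∀ j, X.am y j ∈ Z j) → S.card ≤ m * ∏ j, (Z j).card := by
  classical
  obtain ⟨m, hm⟩ := X.card
  refine ⟨m, fun c S hS Z hZ => ?_⟩
  have h1 := Finset.card_le_mul_card_image (f := fun (y : σ → ℂ) j => X.am y j) S m (fun a _ => by
    refine hm ℂ c a _ fun y hy => ?_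
    obtain ⟨h2, h3⟩ := Finset.mem_filter.1 hy
    exact ⟨(hS y h2).1, (hS y h2).2, fun j s => congrFun (congrFun h3 j) s⟩)
  refine h1.trans (Nat.mul_le_mul_left m ?_)
  rw [← Fintype.card_piFinset]
  apply Finset.card_le_card
  intro a ha
  obtain ⟨y, hy, rfl⟩ := Finset.mem_image.1 ha
  exact Fintype.mem_piFinset.2 fun j => hZ y hy j

/-- **Points of small height in the fibres**, uniformly. -/
theorem points : ∃ B : ℕ → ℕ → ℝ → ℕ, ∀ (k σ β ι : Type) [Field k] [Countable k] [Finite σ]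
    [Fintype β] [Fintype ι] [Algebra k ℂ] (d n : ι → ℕ) (X : Family k σ β ι d n),
    (∀ j, 2 ≤ d j) → ∀ (D : ℕ) (ε : ℝ), 0 < ε → (∀ j, B (d j) D ε ≤ n j) →
    ∃ C : ℝ, ∀ T : ℝ, 1 ≤ T → ∀ (c : β → ℂ) (S : Finset (σ → ℂ)),
      (∀ y ∈ S, y ∈ Pts X.I X.J ℂ ∧ (∀ i, MvPolynomial.aeval y (X.b i) = c i) ∧ X.Low D T y) →
      (S.card : ℝ) ≤ C * T ^ (Fintype.card ι * ε) := by
  classical
  choose N hN using fun (d D : ℕ) (hd : 2 ≤ d) (ε : ℝ) (hε : 0 < ε) => low_count d D hd ε hε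
  refine ⟨fun d D ε => if h : 2 ≤ d ∧ 0 < ε then N d D h.1 ε h.2 else 0, ?_⟩
  intro k σ β ι _ _ _ _ _ _ d n X hd D ε hε hn
  have hn' : ∀ j, N (d j) D (hd j) ε hε ≤ n j := fun j => by
    have h1 : (if h : 2 ≤ d j ∧ 0 < ε then N (d j) D h.1 ε h.2 else 0) ≤ n j := hn j
    rwa [dif_pos ⟨hd j, hε⟩] at h1
  choose C hC using fun j => hN (d j) D (hd j) ε hε (n j) (hn' j)
  obtain ⟨m, hm⟩ := X.count
  refine ⟨m * ∏ j, |C j|, fun T hT c S hS => ?_⟩
  have h1 := hm c S (fun y hy => ⟨(hS y hy).1, (hS y hy).2.1⟩)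
    (fun j => S.image fun y => X.am y j) fun y hy j => Finset.mem_image_of_mem _ hy
  have h2 : ∀ j, ((S.image fun y => X.am y j).card : ℝ) ≤ |C j| * T ^ ε := by
    intro j
    have h3 := hC j T hT (S.image fun y => X.am y j) (fun z hz => by
      obtain ⟨y, hy, rfl⟩ := Finset.mem_image.1 hz
      obtain ⟨h4, -, L, _, _, _, τ, z, h5, h6, h7⟩ := hS y hy
      refine ⟨X.maps y h4 j, L, inferInstance, inferInstance, τ.toRingHom, X.am z j, h5, ?_, h7 j⟩
      intro s
      have h8 : (fun i => τ (z i)) = y := funext h6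
      have h9 := MvPolynomial.comp_aeval_apply (f := z) (φ := τ) (X.a j s)
      rw [h8] at h9
      exact h9)
    refine h3.trans ?_
    have h4 : 0 ≤ T ^ ε := Real.rpow_nonneg (by linarith) _
    exact mul_le_mul_of_nonneg_right (le_abs_self _) h4
  have hT0 : 0 ≤ T := by linarith
  calc (S.card : ℝ) ≤ (m * ∏ j, (S.image fun y => X.am y j).card : ℕ) := by exact_mod_cast h1
    _ = (m : ℝ) * ∏ j, ((S.image fun y => X.am y j).card : ℝ) := by push_cast; rfl
    _ ≤ (m : ℝ) * ∏ j, (|C j| * T ^ ε) := by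
        refine mul_le_mul_of_nonneg_left ?_ (Nat.cast_nonneg _)
        exact Finset.prod_le_prod (fun j _ => Nat.cast_nonneg _) fun j _ => h2 j
    _ = _ := by
        rw [Finset.prod_mul_distrib, Finset.prod_const, Finset.card_univ, mul_comm _ ε,
          Real.rpow_mul hT0, Real.rpow_natCast, mul_assoc]

end Pool.Agent.J6H55.QF
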