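import Pool.Agent.J6H55.QF.Strat
import Pool.Agent.J6H55.JM.Sdat
import Pool.Agent.Q225.GT.Aff

/-!
# The maps with a stable set given by points of the moduli spaces
-/

set_option autoImplicit false

namespace Pool.Agent.J6H55.QF

open Polynomial
open Pool.Agent.Q41.SU (Stab)
open Pool.Agent.Q41.GT (Sg V num den crs rats)
open Pool.Agent.W277.UH (ratP1)
open Pool.Agent.J6H55.JM (Dat SDat alg_up alg_trans alg_crs)

section

variable {K : Type} [Field K]

theorem num_coeff {d : ℕ} (x : Sg d → K) (i : Fin d) : (num d x).coeff i = x (Sum.inl i) := by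
  classical
  unfold num
  rw [finsetSum_coeff, Finset.sum_eq_single i]
  · rw [coeff_C_mul, coeff_X_pow, if_pos rfl, mul_one]
  · intro b _ hb
    rw [coeff_C_mul, coeff_X_pow, if_neg, mul_zero]
    intro h
    exact hb (Fin.ext h.symm)
  · intro h
    exact absurd (Finset.mem_univ i) h

theorem num_deg {d : ℕ} (hd : 1 ≤ d) (x : Sg d → K) : (num d x).natDegree < d := by
  unfold num
  have h1 : (∑ i : Fin d, C (x (Sum.inl i)) * X ^ (i : ℕ)).natDegree ≤ d - 1 := by
    refine natDegree_sum_le_of_forall_le _ _ fun i _ => ?_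
    refine (natDegree_C_mul_X_pow_le _ _).trans ?_
    have := i.2
    omega
  omega

theorem den_coeff {d : ℕ} (x : Sg d → K) (i : Fin (d - 1)) :
    (den d x).coeff ((i : ℕ) + 1) = x (Sum.inr i) := by
  classical
  have hi := i.2
  unfold den
  rw [coeff_add, coeff_add, coeff_X_pow, if_neg (by omega), coeff_C_succ, zero_add, add_zero,
    finsetSum_coeff, Finset.sum_eq_single i]
  · rw [coeff_C_mul, coeff_X_pow, if_pos rfl, mul_one]
  · intro b _ hb
    rw [coeff_C_mul, coeff_X_pow, if_neg, mul_zero]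
    intro h
    exact hb (Fin.ext (by omega))
  · intro h
    exact absurd (Finset.mem_univ i) h

theorem den_deg {d : ℕ} (hd : 1 ≤ d) (x : Sg d → K) :
    (den d x).natDegree = d ∧ (den d x).coeff d = 1 := by
  have h1 : (∑ i : Fin (d - 1), C (x (Sum.inr i)) * X ^ ((i : ℕ) + 1)).natDegree ≤ d - 1 := by
    refine natDegree_sum_le_of_forall_le _ _ fun i _ => ?_
    refine (natDegree_C_mul_X_pow_le _ _).trans ?_
    have := i.2
    omega
  have h2 : (∑ i : Fin (d - 1), C (x (Sum.inr i)) * X ^ ((i : ℕ) + 1) +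
      C ((num d x).coeff 0)).natDegree < d := by
    refine lt_of_le_of_lt (natDegree_add_le _ _) (max_lt (by omega) ?_)
    rw [natDegree_C]
    omega
  have h3 : den d x = X ^ d + (∑ i : Fin (d - 1), C (x (Sum.inr i)) * X ^ ((i : ℕ) + 1) +
      C ((num d x).coeff 0)) := by
    unfold den
    rw [add_assoc]
  have h4 : (den d x).coeff d = 1 := by
    rw [h3, coeff_add, coeff_X_pow, if_pos rfl, coeff_eq_zero_of_natDegree_lt h2, add_zero]
  refine ⟨le_antisymm ?_ (le_natDegree_of_ne_zero (by rw [h4]; exact one_ne_zero)), h4⟩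
  rw [h3]
  exact (natDegree_add_le _ _).trans (max_le (natDegree_X_pow_le _) h2.le)

theorem V_max {d : ℕ} (hd : 1 ≤ d) {x : Sg d → K} :
    max (num d x).natDegree (den d x).natDegree = d := by
  rw [(den_deg hd x).1]
  exact max_eq_right (num_deg hd x).le

theorem V_none {d : ℕ} (hd : 1 ≤ d) (x : Sg d → K) :
    ratP1 (num d x) (den d x) d none = some 0 := by
  have h1 := (den_deg hd x).2
  rw [Pool.Agent.W277.UH.ratP1_none _ _ _ (by rw [h1]; exact one_ne_zero), h1,
    coeff_eq_zero_of_natDegree_lt (num_deg hd x), zero_div]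

theorem den_zero {d : ℕ} (hd : 1 ≤ d) (x : Sg d → K) :
    (den d x).coeff 0 = (num d x).coeff 0 := by
  unfold den
  rw [coeff_add, coeff_add, coeff_X_pow, if_neg (by omega), coeff_C_zero, zero_add,
    finsetSum_coeff, Finset.sum_eq_zero, zero_add]
  intro i _
  rw [coeff_C_mul, coeff_X_pow, if_neg (by omega), mul_zero]

theorem V_zero {d n : ℕ} (hd : 1 ≤ d) {x : Sg d → K} (hx : x ∈ V d n K) :
    ratP1 (num d x) (den d x) d (some 0) = some 1 := by
  have h1 : (num d x).eval 0 ≠ 0 := by
    intro h0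
    have h2 : (den d x).eval 0 = 0 := by
      rw [← coeff_zero_eq_eval_zero] at h0 ⊢
      rw [den_zero hd, h0]
    obtain ⟨a, b, hab⟩ := hx.1
    have := congrArg (eval 0) hab
    rw [eval_add, eval_mul, eval_mul, h0, h2, mul_zero, mul_zero, add_zero, eval_one] at this
    exact zero_ne_one this
  have h2 : (den d x).eval 0 = (num d x).eval 0 := by
    rw [← coeff_zero_eq_eval_zero, ← coeff_zero_eq_eval_zero, den_zero hd]
  rw [Pool.Agent.W277.UH.ratP1_some _ _ _ _ (by rw [h2]; exact h1), h2, div_self h1]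

/-- the orbit of infinity -/
noncomputable def orb {d : ℕ} (n : ℕ) (x : Sg d → K) : Finset (Option K) := by
  classical exact (Finset.range n).image fun m => (ratP1 (num d x) (den d x) d)^[m] none

theorem orb_card {d n : ℕ} {x : Sg d → K} (hx : x ∈ V d n K) : (orb n x).card = n := by
  classical
  unfold orb
  rw [Finset.card_image_of_injOn, Finset.card_range]
  intro a ha b hb h
  have h1 := hx.2
  rw [Finset.coe_range, Set.mem_Iio, ← h1] at ha hb
  exact (Function.iterate_eq_iterate_iff_of_lt_minimalPeriod ha hb).1 h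

theorem orb_mem {d n : ℕ} (hn : 1 ≤ n) {x : Sg d → K} (hx : x ∈ V d n K) (m : ℕ) :
    (ratP1 (num d x) (den d x) d)^[m] none ∈ orb n x := by
  classical
  unfold orb
  refine Finset.mem_image.2 ⟨m % n, Finset.mem_range.2 (Nat.mod_lt _ hn), ?_⟩
  have h1 := hx.2
  have h2 := Function.iterate_mod_minimalPeriod_eq (f := ratP1 (num d x) (den d x) d)
    (x := (none : Option K)) (n := m)
  rw [h1] at h2
  exact h2

theorem orb_stab {d n : ℕ} (hn : 1 ≤ n) {x : Sg d → K} (hx : x ∈ V d n K) :
    ∀ z ∈ orb n x, ratP1 (num d x) (den d x) d z ∈ orb n x := by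
  classical
  intro z hz
  unfold orb at hz
  obtain ⟨m, -, rfl⟩ := Finset.mem_image.1 hz
  have h1 := orb_mem hn hx (m + 1)
  rw [Function.iterate_succ_apply'] at h1
  exact h1

end

section

variable {k K : Type} [Field k] [CharZero k] [Field K] [Algebra k K]

/-- **The map with a stable set.** -/
theorem V_sdat {d n : ℕ} (hd : 2 ≤ d) (hn : 3 * d + 7 ≤ n) {x : Sg d → K} (hx : x ∈ V d n K) :
    ∃ (p q : (IntermediateField.adjoin k (Set.range x))[X])
      (P : Finset (IntermediateField.adjoin k (Set.range x))), SDat k d p q P ∧ P.card = n := by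
  classical
  obtain ⟨L, hL⟩ : ∃ L, L = IntermediateField.adjoin k (Set.range x) := ⟨_, rfl⟩
  rw [← hL]
  have hxL : ∀ s, x s ∈ L := fun s => by
    rw [hL]
    exact IntermediateField.subset_adjoin _ _ ⟨s, rfl⟩
  obtain ⟨x', hx'⟩ : ∃ x' : Sg d → L, ∀ s, (x' s : K) = x s := ⟨fun s => ⟨x s, hxL s⟩, fun s => rfl⟩
  have hV : x' ∈ V d n L := by
    rw [← V_map_iff L.val.toRingHom]
    have h1 : (fun i => L.val.toRingHom (x' i)) = x := funext hx'
    rw [h1]
    exact hx
  have hd1 : 1 ≤ d := by omega
  have hn1 : 1 ≤ n := by omega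
  have hgen : IntermediateField.adjoin k (Set.range x') = ⊤ := by
    apply IntermediateField.lift_injective
    rw [IntermediateField.lift_adjoin, IntermediateField.lift_top, ← Set.range_comp]
    have h1 : (Subtype.val ∘ x') = x := funext hx'
    rw [h1, hL]
  have hrat : ∀ s, x' s ∈ IntermediateField.adjoin k (rats (num d x') (den d x')) := by
    intro s
    apply IntermediateField.subset_adjoin
    have h1 := (den_deg hd1 x').2
    rcases s with i | i
    · refine ⟨num d x', den d x', Or.inl rfl, Or.inr rfl, i, d, ?_⟩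
      rw [h1, div_one, num_coeff]
    · refine ⟨den d x', den d x', Or.inr rfl, Or.inr rfl, (i : ℕ) + 1, d, ?_⟩
      rw [h1, div_one, den_coeff]
  have halg : Algebra.IsAlgebraic (IntermediateField.adjoin k (rats (num d x') (den d x'))) L :=
    Pool.Agent.Q285.GT.algebraic_of_gens x' hgen _ fun s =>
      isAlgebraic_algebraMap (⟨x' s, hrat s⟩ : IntermediateField.adjoin k (rats (num d x') (den d x')))
  obtain ⟨p, q, P, h1, h2, h3, h4, h5, h6⟩ := Pool.Agent.Q225.GT.aff k L d hd (num d x')
    (den d x') hV.1 (V_max hd1) (orb n x') (orb_stab hn1 hV) (by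
      have := orb_mem hn1 hV 0
      exact this) (by
      have := orb_mem hn1 hV 1
      rw [Function.iterate_one, V_none hd1] at this
      exact this) (by
      have := orb_mem hn1 hV 2
      rw [Function.iterate_succ_apply', Function.iterate_one, V_none hd1, V_zero hd1 hV] at this
      exact this) (by rw [orb_card hV]; exact hn) halg
  refine ⟨p, q, P, ⟨h1, h2, h3, h4, h6, ?_⟩, by rw [h5, orb_card hV]⟩
  let e := (Fintype.equivFin (Sg d)).symm
  refine ⟨_, fun i => x' (e i), ?_⟩
  have h7 : (Set.range fun i => x' (e i)) = Set.range x' := e.surjective.range_comp x'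
  rw [h7, hgen]

end

end Pool.Agent.J6H55.QF
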