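import Pool.Agent.J6H55.QF.Alg
import Pool.Agent.Q103.RP.Alg

/-!
# Uniform algebraic relations, by noetherian induction
-/

set_option autoImplicit false

namespace Pool.Agent.J6H55.QF

open Polynomial
open Pool.Agent.Q41.GT (Sg V num den)
open Pool.Agent.Q103.RP (evc evc_coeff evc_hom evc_eval alg_poly)

/-- `f` is a nonzero relation for `z` over the point with the coordinates `e` -/
def Rel {k E : Type} [Field k] [Field E] [Algebra k E] {n : ℕ}
    (f : Polynomial (MvPolynomial (Fin n) k)) (e : Fin n → E) (z : E) : Prop :=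
  evc f e ≠ 0 ∧ (evc f e).eval z = 0

theorem strat_ideal {k σ : Type} [Field k] [Finite σ] (I J : Set (MvPolynomial σ k)) {n : ℕ}
    (c : Fin n → MvPolynomial σ k)
    (halg : ∀ (K : Type) [Field K] [Algebra k K] (y : σ → K), y ∈ Pts I J K → ∀ i,
      IsAlgebraic (IntermediateField.adjoin k (Set.range fun s => MvPolynomial.aeval y (c s))) (y i))
    (p : Ideal (MvPolynomial σ k)) :
    ∃ Q : Finset (Polynomial (MvPolynomial (Fin n) k)), ∀ (E : Type) [Field E] [Algebra k E]
      (y : σ → E), y ∈ Pts I J E → (∀ G ∈ p, MvPolynomial.aeval y G = 0) → ∀ i, ∃ f ∈ Q,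
        Rel f (fun s => MvPolynomial.aeval y (c s)) (y i) := by
  classical
  have := Fintype.ofFinite σ
  induction p using WellFoundedGT.induction with
  | ind p IH =>
    by_cases htop : p = ⊤
    · refine ⟨∅, fun E _ _ y _ hp => ?_⟩
      exfalso
      have h1 := hp 1 (by rw [htop]; trivial)
      rw [map_one] at h1
      exact one_ne_zero h1
    by_cases hprime : p.IsPrime
    swap
    · obtain ⟨F, G, hF, hG, hFG⟩ : ∃ F G, F ∉ p ∧ G ∉ p ∧ F * G ∈ p := by
        by_contra hcon
        push Not at hcon
        apply hprime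
        refine ⟨htop, fun {F G} h => ?_⟩
        by_contra h1
        rw [not_or] at h1
        exact hcon F G h1.1 h1.2 h
      have hlt : ∀ H, H ∉ p → p < p ⊔ Ideal.span {H} := by
        intro H hH
        refine lt_of_le_of_ne le_sup_left fun h0 => hH ?_
        rw [h0]
        exact Ideal.mem_sup_right (Ideal.subset_span rfl)
      obtain ⟨Q1, hQ1⟩ := IH _ (hlt F hF)
      obtain ⟨Q2, hQ2⟩ := IH _ (hlt G hG)
      refine ⟨Q1 ∪ Q2, fun E _ _ y hy hp i => ?_⟩
      have h1 := hp _ hFG
      rw [map_mul, mul_eq_zero] at h1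
      have hext : ∀ H, MvPolynomial.aeval y H = 0 → ∀ G ∈ p ⊔ Ideal.span {H},
          MvPolynomial.aeval y G = 0 := by
        intro H hH G hG
        have h2 : p ⊔ Ideal.span {H} ≤ RingHom.ker
            (MvPolynomial.aeval y : MvPolynomial σ k →ₐ[k] E) := by
          refine sup_le (fun G hG => hp G hG) ?_
          rw [Ideal.span_le, Set.singleton_subset_iff]
          exact hH
        exact h2 hG
      rcases h1 with h1 | h1
      · obtain ⟨f, hf, h2⟩ := hQ1 E y hy (hext F h1) i
        exact ⟨f, Finset.mem_union_left _ hf, h2⟩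
      · obtain ⟨f, hf, h2⟩ := hQ2 E y hy (hext G h1) i
        exact ⟨f, Finset.mem_union_right _ hf, h2⟩
    -- the generic point
    have hlt : ∀ H, H ∉ p → p < p ⊔ Ideal.span {H} := by
      intro H hH
      refine lt_of_le_of_ne le_sup_left fun h0 => hH ?_
      rw [h0]
      exact Ideal.mem_sup_right (Ideal.subset_span rfl)
    have hext : ∀ (E : Type) [Field E] [Algebra k E] (y : σ → E),
        (∀ G ∈ p, MvPolynomial.aeval y G = 0) → ∀ H, MvPolynomial.aeval y H = 0 →
        ∀ G ∈ p ⊔ Ideal.span {H}, MvPolynomial.aeval y G = 0 := by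
      intro E _ _ y hp H hH G hG
      have h2 : p ⊔ Ideal.span {H} ≤ RingHom.ker
          (MvPolynomial.aeval y : MvPolynomial σ k →ₐ[k] E) := by
        refine sup_le (fun G hG => hp G hG) ?_
        rw [Ideal.span_le, Set.singleton_subset_iff]
        exact hH
      exact h2 hG
    let A := MvPolynomial σ k ⧸ p
    let K := FractionRing A
    let z : σ → K := fun i => algebraMap A K (Ideal.Quotient.mk p (MvPolynomial.X i))
    have hval : ∀ G : MvPolynomial σ k, MvPolynomial.aeval z G =
        algebraMap A K (Ideal.Quotient.mk p G) := by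
      intro G
      have h1 : (MvPolynomial.aeval z : MvPolynomial σ k →ₐ[k] K) =
          (Algebra.ofId A K |>.restrictScalars k).comp (Ideal.Quotient.mkₐ k p) := by
        apply MvPolynomial.algHom_ext
        intro i
        rw [MvPolynomial.aeval_X]
        rfl
      rw [h1]
      rfl
    have hmem : ∀ G : MvPolynomial σ k, MvPolynomial.aeval z G = 0 ↔ G ∈ p := by
      intro G
      rw [hval, map_eq_zero_iff _ (IsFractionRing.injective A K), Ideal.Quotient.eq_zero_iff_mem]
    by_cases hI : ∃ F ∈ I, F ∉ p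
    · obtain ⟨F, hF, hFp⟩ := hI
      obtain ⟨Q, hQ⟩ := IH _ (hlt F hFp)
      exact ⟨Q, fun E _ _ y hy hp i => hQ E y hy (hext E y hp F (hy.1 F hF)) i⟩
    by_cases hJ : ∃ G ∈ J, G ∉ p
    swap
    · push Not at hJ
      refine ⟨∅, fun E _ _ y hy hp => ?_⟩
      exfalso
      obtain ⟨G, hG, h1⟩ := hy.2
      exact h1 (hp G (hJ G hG))
    push Not at hI
    have hz : z ∈ Pts I J K := by
      refine ⟨fun F hF => (hmem F).2 (hI F hF), ?_⟩
      obtain ⟨G, hG, hGp⟩ := hJ
      exact ⟨G, hG, fun h => hGp ((hmem G).1 h)⟩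
    have h1 : ∀ i, ∃ f : Polynomial (MvPolynomial (Fin n) k),
        (∃ m, (evc f fun s => MvPolynomial.aeval z (c s)).coeff m ≠ 0) ∧
        (evc f fun s => MvPolynomial.aeval z (c s)).eval (z i) = 0 := fun i =>
      alg_poly (fun s => MvPolynomial.aeval z (c s)) (z i) (halg K z hz i)
    choose f hf1 hf2 using h1
    choose m hm using hf1
    let H : σ → MvPolynomial σ k := fun i => MvPolynomial.bind₁ c ((f i).coeff (m i))
    have hHv : ∀ (E : Type) [Field E] [Algebra k E] (y : σ → E) (G : MvPolynomial (Fin n) k),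
        MvPolynomial.aeval y (MvPolynomial.bind₁ c G) =
          MvPolynomial.aeval (fun s => MvPolynomial.aeval y (c s)) G := by
      intro E _ _ y G
      rw [MvPolynomial.aeval_bind₁]
    have hHp : ∀ i, H i ∉ p := by
      intro i h
      apply hm i
      rw [evc_coeff, ← hHv]
      exact (hmem _).2 h
    choose Q hQ using fun i => IH _ (hlt (H i) (hHp i))
    refine ⟨Finset.univ.image f ∪ Finset.univ.biUnion Q, fun E _ _ y hy hp i => ?_⟩
    by_cases h2 : MvPolynomial.aeval y (H i) = 0
    · obtain ⟨g, hg, h3⟩ := hQ i E y hy (hext E y hp (H i) h2) i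
      exact ⟨g, Finset.mem_union_right _ (Finset.mem_biUnion.2 ⟨i, Finset.mem_univ _, hg⟩), h3⟩
    · refine ⟨f i, Finset.mem_union_left _ (Finset.mem_image_of_mem _ (Finset.mem_univ _)), ?_, ?_⟩
      · intro h0
        apply h2
        have h4 : (evc (f i) fun s => MvPolynomial.aeval y (c s)).coeff (m i) = 0 := by
          rw [h0, coeff_zero]
        rw [evc_coeff, ← hHv] at h4
        exact h4
      · -- the relation is in the ideal
        let R : MvPolynomial σ k := ((f i).map (MvPolynomial.bind₁ c).toRingHom).eval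
          (MvPolynomial.X i)
        have hR : ∀ (E : Type) [Field E] [Algebra k E] (y : σ → E), MvPolynomial.aeval y R =
            (evc (f i) fun s => MvPolynomial.aeval y (c s)).eval (y i) := by
          intro E _ _ y
          have h5 : (MvPolynomial.aeval y : MvPolynomial σ k →ₐ[k] E).toRingHom
              (((f i).map (MvPolynomial.bind₁ c).toRingHom).eval (MvPolynomial.X i)) =
              (((f i).map (MvPolynomial.bind₁ c).toRingHom).map
                (MvPolynomial.aeval y : MvPolynomial σ k →ₐ[k] E).toRingHom).eval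
                ((MvPolynomial.aeval y : MvPolynomial σ k →ₐ[k] E).toRingHom (MvPolynomial.X i)) :=
            (Polynomial.eval_map_apply _ _).symm
          refine h5.trans ?_
          have h6 : ((f i).map (MvPolynomial.bind₁ c).toRingHom).map
              (MvPolynomial.aeval y : MvPolynomial σ k →ₐ[k] E).toRingHom =
              evc (f i) fun s => MvPolynomial.aeval y (c s) := by
            unfold evc
            rw [Polynomial.map_map]
            congr 1
            apply RingHom.ext
            intro G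
            exact hHv E y G
          rw [h6]
          congr 1
          exact MvPolynomial.aeval_X y i
        rw [← hR]
        apply hp
        rw [← hmem, hR]
        exact hf2 i

section

variable {k σ β ι : Type} [Field k] [Countable k] [Finite σ] [Fintype β] [Fintype ι] [Algebra k ℂ]
  {d n : ι → ℕ}

/-- **Uniform relations.** -/
theorem Family.strat (X : Family k σ β ι d n) : ∃ (N : ℕ) (e : Fin N ≃ β ⊕ (Σ j, Sg (d j)))
    (Q : Finset (Polynomial (MvPolynomial (Fin N) k))), ∀ (E : Type) [Field E] [Algebra k E]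
      (y : σ → E), y ∈ Pts X.I X.J E → ∀ i, ∃ f ∈ Q,
        Rel f (fun s => MvPolynomial.aeval y (X.c (e s))) (y i) := by
  let e := (Fintype.equivFin (β ⊕ (Σ j, Sg (d j)))).symm
  obtain ⟨Q, hQ⟩ := strat_ideal X.I X.J (fun s => X.c (e s)) (fun K _ _ y hy i => by
    have h1 := X.alg hy i
    have h2 : (Set.range fun s => MvPolynomial.aeval y (X.c (e s))) =
        Set.range fun s => MvPolynomial.aeval y (X.c s) := by
      exact e.surjective.range_comp (fun s => MvPolynomial.aeval y (X.c s))
    rw [h2]
    exact h1) ⊥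
  refine ⟨_, e, Q, fun E _ _ y hy i => hQ E y hy (fun G hG => ?_) i⟩
  rw [Ideal.mem_bot] at hG
  rw [hG, map_zero]

/-- **The fibres are uniformly finite.** -/
theorem Family.card (X : Family k σ β ι d n) : ∃ m : ℕ, ∀ (E : Type) [Field E] [Algebra k E]
    (c : β → E) (e : ∀ j, Sg (d j) → E) (S : Finset (σ → E)), (∀ y ∈ S, y ∈ Pts X.I X.J E ∧
      (∀ i, MvPolynomial.aeval y (X.b i) = c i) ∧ ∀ j s, MvPolynomial.aeval y (X.a j s) = e j s) →
    S.card ≤ m := by
  classical
  have := Fintype.ofFinite σ
  obtain ⟨N, e', Q, hQ⟩ := X.strat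
  obtain ⟨D, hD⟩ : ∃ D, D = ∑ f ∈ Q, f.natDegree := ⟨_, rfl⟩
  refine ⟨D ^ Fintype.card σ, fun E _ _ c e S hS => ?_⟩
  -- the values of the coordinates
  let w : β ⊕ (Σ j, Sg (d j)) → E := Sum.elim c fun s => e s.1 s.2
  let R : Finset E := Q.biUnion fun f => (evc f fun s => w (e' s)).roots.toFinset
  have hw : ∀ y ∈ S, ∀ s, MvPolynomial.aeval y (X.c s) = w s := by
    intro y hy s
    obtain ⟨-, h2, h3⟩ := hS y hy
    rcases s with s | s
    · exact h2 s
    · exact h3 s.1 s.2
  have hR : R.card ≤ D := by
    rw [hD]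
    refine Finset.card_biUnion_le.trans (Finset.sum_le_sum fun f _ => ?_)
    refine (Multiset.toFinset_card_le _).trans ((card_roots' _).trans ?_)
    unfold evc
    exact natDegree_map_le
  have hsub : S ⊆ Fintype.piFinset fun _ : σ => R := by
    intro y hy
    rw [Fintype.mem_piFinset]
    intro i
    obtain ⟨f, hf, h1, h2⟩ := hQ E y (hS y hy).1 i
    have h3 : (fun s => MvPolynomial.aeval y (X.c (e' s))) = fun s => w (e' s) :=
      funext fun s => hw y hy _
    rw [h3] at h1 h2
    refine Finset.mem_biUnion.2 ⟨f, hf, ?_⟩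
    rw [Multiset.mem_toFinset, mem_roots h1]
    exact h2
  refine (Finset.card_le_card hsub).trans ?_
  rw [Fintype.card_piFinset, Finset.prod_const, Finset.card_univ]
  exact Nat.pow_le_pow_left hR _

end

end Pool.Agent.J6H55.QF
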