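import Pool.Agent.J6H55.QF.Sd

/-!
# Subvarieties of the fibres
-/

set_option autoImplicit false

namespace Pool.Agent.J6H55.QF

open Polynomial
open Pool.Agent.W602.GT (GeneralType)
open Pool.Agent.Q41.GT (Sg V num den crs rats)
open Pool.Agent.J6H55.JM (Dat SDat alg_up alg_trans alg_crs elt_trans elt_mono gt_joint)

/-- the value of the `j`-th morphism to moduli -/
noncomputable def Family.am {k σ β ι : Type} [Field k] [Algebra k ℂ] {d n : ι → ℕ}
    (X : Family k σ β ι d n) {E : Type} [Field E] [Algebra k E] (y : σ → E) (j : ι) : Sg (d j) → E :=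
  fun s => MvPolynomial.aeval y (X.a j s)

section

variable {k σ β ι : Type} [Field k] [Countable k] [Finite σ] [Fintype β] [Fintype ι] [Algebra k ℂ]
  {d n : ι → ℕ}

/-- the coordinates are algebraic over the field of the base and the moduli -/
theorem Family.alg_over (X : Family k σ β ι d n) {κ E : Type} [Field κ] [Algebra k κ] [Field E]
    [Algebra k E] [Algebra κ E] [IsScalarTower k κ E] {y : σ → E} (hy : y ∈ Pts X.I X.J E)
    {L : IntermediateField κ E} (hb : ∀ i, IsAlgebraic L (MvPolynomial.aeval y (X.b i)))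
    (ha : ∀ j s, IsAlgebraic L (X.am y j s)) (i : σ) : IsAlgebraic L (y i) := by
  have h1 := X.alg hy i
  have h2 := alg_up (k := k) (k' := κ) (K := E) (L := E)
    (S := Set.range fun s => MvPolynomial.aeval y (X.c s))
    (S' := Set.range fun s => MvPolynomial.aeval y (X.c s)) (fun c hc => hc) h1
  refine elt_trans ?_ h2
  rintro _ ⟨s | s, rfl⟩
  · exact hb s
  · exact ha s.1 s.2

/-- **Subvarieties of the fibres are of general type.** -/
theorem sub : ∃ B : ℕ → ℕ, ∀ (k σ β ι : Type) [Field k] [Countable k] [Finite σ] [Fintype β]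
    [Fintype ι] [Algebra k ℂ] (d n : ι → ℕ) (X : Family k σ β ι d n), (∀ j, 2 ≤ d j) →
    (∀ j, B (d j) ≤ n j) → ∀ (κ E : Type) [Field κ] [Algebra k κ] [Field E]
    [Algebra k E] [Algebra κ E] [IsScalarTower k κ E] (y : σ → E), y ∈ Pts X.I X.J E →
    (∀ i, IsAlgebraic κ (MvPolynomial.aeval y (X.b i))) →
    IntermediateField.adjoin κ (Set.range y) = ⊤ → ∀ w : ℕ, 1 ≤ w → Algebra.trdeg κ E = w →
    GeneralType κ E w := by
  classical
  obtain ⟨B, hB⟩ := gt_joint
  refine ⟨fun d => max (B d) (3 * d + 7), ?_⟩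
  intro k σ β ι _ _ _ _ _ _ d n X hd hn κ E _ _ _ _ _ _ y hy hb hgen w hw htr
  have : CharZero k := by
    refine ⟨fun a b h => ?_⟩
    have h1 := congrArg (algebraMap k ℂ) h
    rw [map_natCast, map_natCast] at h1
    exact_mod_cast h1
  have : CharZero κ := charZero_of_injective_algebraMap (algebraMap k κ).injective
  have hV : ∀ j, X.am y j ∈ V (d j) (n j) E := fun j => X.maps' hy j
  have hn1 : ∀ j, 3 * d j + 7 ≤ n j := fun j => (le_max_right _ _).trans (hn j)
  choose p q P hS hc using fun j => V_sdat (k := κ) (hd j) (hn1 j) (hV j)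
  have hcard : ∀ j, ((P j).image (algebraMap (IntermediateField.adjoin κ (Set.range (X.am y j))) E)).card =
      n j := by
    intro j
    refine (Finset.card_image_of_injective _ (RingHom.injective
      (algebraMap (IntermediateField.adjoin κ (Set.range (X.am y j))) E))).trans (hc j)
  refine hB κ E w hw htr ι d (fun j => (p j).map (algebraMap _ E))
    (fun j => (q j).map (algebraMap _ E)) (fun j => (P j).image (algebraMap _ E)) hd
    (fun j => (hS j).toDat) (fun j => ?_) ?_
  · rw [hcard]
    exact (le_max_left _ _).trans (hn j)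
  · refine alg_crs hS ?_
    refine Pool.Agent.Q285.GT.algebraic_of_gens y hgen _ fun i => ?_
    refine X.alg_over hy (fun i => (hb i).tower_top _) (fun j s => ?_) i
    have h1 : X.am y j s ∈ IntermediateField.adjoin κ
        (⋃ f, Set.range (algebraMap (IntermediateField.adjoin κ (Set.range (X.am y f))) E)) :=
      IntermediateField.subset_adjoin _ _ (Set.mem_iUnion.2 ⟨j,
        ⟨⟨_, IntermediateField.subset_adjoin _ _ ⟨s, rfl⟩⟩, rfl⟩⟩)
    exact isAlgebraic_algebraMap (⟨_, h1⟩ : IntermediateField.adjoin κ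
        (⋃ f, Set.range (algebraMap (IntermediateField.adjoin κ (Set.range (X.am y f))) E)))

end

end Pool.Agent.J6H55.QF
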