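import Pool.Agent.J6H55.QF.Crv
import Pool.Agent.J6H55.QF.Pln
import Pool.Agent.J6H55.QF.Good

/-!
# Families of varieties which are quasi-finite over products of moduli spaces of maps: main theorem
-/

set_option autoImplicit false
set_option linter.overlappingInstances false

namespace Pool.Agent.J6H55.QF

open FF
open Pool.Agent.W602.GT (GeneralType)
open Pool.Agent.W603.LV (hgt canDeg)
open Pool.Agent.Q41.GT (Sg V)

theorem countable_nf (k : Type) [Field k] [NumberField k] : Countable k :=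
  Countable.of_equiv _ (Module.finBasis ℚ k).equivFun.toEquiv.symm

/-- **Main theorem.** -/
theorem main : ∃ (B₀ : ℕ → ℕ) (B₁ : ℕ → ℕ → ℝ → ℕ) (B₂ : ℕ → ℕ → ℕ), ∀ (k : Type) [Field k]
    [NumberField k] [Algebra k ℂ] (σ β ι : Type) [Finite σ] [Fintype β] [Fintype ι] (d n : ι → ℕ)
    (X : Family k σ β ι d n), (∀ j, 2 ≤ d j) →
    ((∀ j, B₀ (d j) ≤ n j) →
      (∀ (κ E : Type) [Field κ] [Algebra k κ] [Field E] [Algebra k E] [Algebra κ E]
        [IsScalarTower k κ E] (y : σ → E), y ∈ Pts X.I X.J E →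
        (∀ i, IsAlgebraic κ (MvPolynomial.aeval y (X.b i))) →
        IntermediateField.adjoin κ (Set.range y) = ⊤ → ∀ w : ℕ, 1 ≤ w → Algebra.trdeg κ E = w →
        GeneralType κ E w) ∧
      (∀ f : σ → ℂ → ℂ, HolMap X.I X.J Set.univ f →
        (∀ j s z, X.am (fun i => f i z) j s = X.am (fun i => f i 1) j s) ∧
        ((∀ i z, MvPolynomial.aeval (fun i => f i z) (X.b i) =
          MvPolynomial.aeval (fun i => f i 1) (X.b i)) → ∀ i z, f i z = f i 1)) ∧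
      (∀ f : σ → ℂ → ℂ, HolMap X.I X.J PD f →
        (∀ j s, MeromorphicAt (fun z => X.am (fun i => f i z) j s) 0) ∧
        ((∀ i, MeromorphicAt (fun z => MvPolynomial.aeval (fun i => f i z) (X.b i)) 0) →
          ∀ i, MeromorphicAt (f i) 0)) ∧
      ∃ A : ℕ, ∀ (κ L : Type) [Field κ] [IsAlgClosed κ] [Algebra k κ] [Field L] [Algebra k L]
        [Algebra κ L] [IsScalarTower k κ L] [IsFF κ L] (y : σ → L), y ∈ Pts X.I X.J L →
        ∀ i, hgt κ (y i) ≤ A * (max (canDeg κ L) 0 + ∑ i, hgt κ (MvPolynomial.aeval y (X.b i)))) ∧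
    (∀ (D : ℕ) (ε : ℝ), 0 < ε → (∀ j, B₁ (d j) D ε ≤ n j) →
      ∃ C : ℝ, ∀ T : ℝ, 1 ≤ T → ∀ (c : β → ℂ) (S : Finset (σ → ℂ)),
        (∀ y ∈ S, y ∈ Pts X.I X.J ℂ ∧ (∀ i, MvPolynomial.aeval y (X.b i) = c i) ∧ X.Low D T y) →
        (S.card : ℝ) ≤ C * T ^ (Fintype.card ι * ε)) ∧
    ∀ D : ℕ, (∀ j, B₂ (d j) D ≤ n j) → ∀ M : ℕ, M ≠ 0 →
      ∃ C : ℕ, ∀ (c : β → ℂ) (S : Finset (σ → ℂ)),
        (∀ y ∈ S, y ∈ Pts X.I X.J ℂ ∧ (∀ i, MvPolynomial.aeval y (X.b i) = c i) ∧ X.Good D M y) →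
        S.card ≤ C := by
  obtain ⟨Ba, ha⟩ := sub
  obtain ⟨Bb, hb⟩ := plane
  obtain ⟨Bc, hc⟩ := disc
  obtain ⟨Bd, hd'⟩ := height
  obtain ⟨B₁, hp⟩ := points
  obtain ⟨B₂, hg⟩ := good
  refine ⟨fun d => max (max (Ba d) (Bb d)) (max (Bc d) (Bd d)), B₁, B₂, ?_⟩
  intro k _ _ _ σ β ι _ _ _ d n X hd
  have := countable_nf k
  refine ⟨fun hn => ⟨?_, ?_, ?_, ?_⟩, ?_, ?_⟩
  · exact ha k σ β ι d n X hd fun j => ((le_max_left _ _).trans (le_max_left _ _)).trans (hn j)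
  · exact hb k σ β ι d n X hd fun j => ((le_max_right _ _).trans (le_max_left _ _)).trans (hn j)
  · exact hc k σ β ι d n X hd fun j => ((le_max_left _ _).trans (le_max_right _ _)).trans (hn j)
  · exact hd' k σ β ι d n X hd fun j => ((le_max_right _ _).trans (le_max_right _ _)).trans (hn j)
  · exact hp k σ β ι d n X hd
  · exact hg k σ β ι d n X hd

end Pool.Agent.J6H55.QF
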